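import Mathlib

/-!
# Spanning a finite-dimensional algebra by polynomials of small degree

Let `R` be a finite-dimensional commutative `ℂ`-algebra generated by `n` elements of an ideal `𝔪`.
If there is a nonzero polynomial of degree at most `d` vanishing at every `u ∈ 𝔪ⁿ`
(e.g. for dimension reasons), then for suitable `u ∈ 𝔪ⁿ` the polynomials of degree at most `2 d`
in `u` already give all of `R`.
-/

set_option autoImplicit false

open MvPolynomial Filter Topology

namespace Pool.Agent.GermDegree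

noncomputable section

section Degrees

variable {σ : Type*}

lemma totalDegree_pderiv_le (p : MvPolynomial σ ℂ) (i : σ) {m : ℕ} (h : p.totalDegree ≤ m + 1) :
    (pderiv i p).totalDegree ≤ m := by
  rw [totalDegree, Finset.sup_le_iff]
  intro s hs
  have h1 : coeff s (pderiv i p) ≠ 0 := by simpa using hs
  rw [coeff_pderiv] at h1
  have h2 : coeff (s + Finsupp.single i 1) p ≠ 0 := by
    intro h0; apply h1; simp [h0]
  have h3 := le_totalDegree (mem_support_iff.mpr h2)
  rw [Finsupp.sum_add_index' (by simp) (by simp)] at h3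
  rw [Finsupp.sum_single_index rfl] at h3
  omega

lemma exists_pderiv_top (p : MvPolynomial σ ℂ) {m : ℕ}
    (h : ∃ s ∈ p.support, s.degree = m + 1) :
    ∃ i, ∃ s ∈ (pderiv i p).support, s.degree = m := by
  obtain ⟨s, hs, hdeg⟩ := h
  have hne : s ≠ 0 := by
    rintro rfl
    simp at hdeg
  obtain ⟨i, hi⟩ := Finsupp.ne_iff.mp hne
  simp only [Finsupp.coe_zero, Pi.zero_apply] at hi
  have hle : Finsupp.single i 1 ≤ s := by
    rw [Finsupp.single_le_iff]; omega
  refine ⟨i, s - Finsupp.single i 1, ?_, ?_⟩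
  · rw [mem_support_iff, coeff_pderiv, tsub_add_cancel_of_le hle]
    rw [mem_support_iff] at hs
    refine mul_ne_zero hs ?_
    have : ((s - Finsupp.single i 1 : σ →₀ ℕ) i : ℂ) + 1 = s i := by
      rw [Finsupp.tsub_apply, Finsupp.single_eq_same]
      have : 1 ≤ s i := by omega
      push_cast [Nat.cast_sub this]
      ring
    rw [this]
    exact_mod_cast hi
  · have := congrArg Finsupp.degree (tsub_add_cancel_of_le hle)
    rw [map_add, hdeg] at this
    simp at this
    exact this

/-- Every homogeneous polynomial of degree `m + 1` is a sum of `X a * h` with `h` homogeneous of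
degree `m`. -/
lemma homog_induction {V : Type*} [AddCommMonoid V] [Module ℂ V]
    (L : MvPolynomial σ ℂ →ₗ[ℂ] V) (S : Submodule ℂ V) {m : ℕ}
    (H : ∀ (a : σ) (h : MvPolynomial σ ℂ), h.IsHomogeneous m → L (X a * h) ∈ S)
    (h : MvPolynomial σ ℂ) (hh : h.IsHomogeneous (m + 1)) : L h ∈ S := by
  rw [h.as_sum, map_sum]
  refine Submodule.sum_mem _ fun s hs => ?_
  have hdeg : s.degree = m + 1 := by
    have := hh (mem_support_iff.mp hs)
    rw [Finsupp.degree_eq_weight_one]
    exact this
  have hne : s ≠ 0 := by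
    rintro rfl
    simp at hdeg
  obtain ⟨i, hi⟩ := Finsupp.ne_iff.mp hne
  simp only [Finsupp.coe_zero, Pi.zero_apply] at hi
  have hle : Finsupp.single i 1 ≤ s := by
    rw [Finsupp.single_le_iff]; omega
  have h1 : monomial s (coeff s h) = X i * monomial (s - Finsupp.single i 1) (coeff s h) := by
    rw [X, monomial_mul, one_mul, add_comm, tsub_add_cancel_of_le hle]
  rw [h1]
  refine H i _ ?_
  apply isHomogeneous_monomial
  have := congrArg Finsupp.degree (tsub_add_cancel_of_le hle)
  rw [map_add, hdeg] at this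
  simp at this
  exact this

end Degrees

section Semicontinuity

variable {R : Type*} [CommRing R] [Algebra ℂ R] [FiniteDimensional ℂ R]

lemma eventually_linearIndependent {ι : Type*} [Finite ι] (G : ι → Polynomial R)
    (h : LinearIndependent ℂ (fun j => (G j).eval 0)) :
    ∀ᶠ t in 𝓝 (0 : ℂ), LinearIndependent ℂ (fun j => (G j).eval (algebraMap ℂ R t)) := by
  let b := Module.finBasis ℂ R
  let e := b.equivFun
  have hcont : Continuous (fun t : ℂ => fun j => e ((G j).eval (algebraMap ℂ R t))) := by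
    refine continuous_pi fun j => ?_
    have : (fun t : ℂ => e ((G j).eval (algebraMap ℂ R t))) =
        fun t => ∑ k ∈ Finset.range ((G j).natDegree + 1), t ^ k • e ((G j).coeff k) := by
      funext t
      rw [Polynomial.eval_eq_sum_range, map_sum]
      refine Finset.sum_congr rfl fun k _ => ?_
      rw [← map_pow, mul_comm, ← Algebra.smul_def, map_smul]
    rw [this]
    fun_prop
  have h0 : LinearIndependent ℂ (fun j => e ((G j).eval (algebraMap ℂ R 0))) := by
    rw [map_zero]
    exact h.map' e.toLinearMap e.ker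
  have := (hcont.tendsto 0).eventually h0.eventually
  filter_upwards [this] with t ht
  exact LinearIndependent.of_comp e.toLinearMap ht

variable {n : ℕ}

/-- The space of values at `u` of the polynomials of total degree at most `e`. -/
def W (u : Fin n → R) (e : ℕ) : Submodule ℂ R :=
  (restrictTotalDegree (Fin n) ℂ e).map (aeval u).toLinearMap

omit [FiniteDimensional ℂ R] in
lemma mem_W {u : Fin n → R} {e : ℕ} {x : R} :
    x ∈ W u e ↔ ∃ p : MvPolynomial (Fin n) ℂ, p.totalDegree ≤ e ∧ aeval u p = x := by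
  simp [W, Submodule.mem_map, mem_restrictTotalDegree]

omit [FiniteDimensional ℂ R] in
lemma W_mono (u : Fin n → R) {e e' : ℕ} (h : e ≤ e') : W u e ≤ W u e' := by
  intro x hx
  rw [mem_W] at hx ⊢
  obtain ⟨p, hp, rfl⟩ := hx
  exact ⟨p, hp.trans h, rfl⟩

/-- The formal perturbation `u i + X * v` of the `i`-th entry of `u`. -/
def pert (u : Fin n → R) (i : Fin n) (v : R) : Fin n → Polynomial R :=
  fun k => Polynomial.C (u k) + if k = i then Polynomial.X * Polynomial.C v else 0

/-- The perturbation `u i + t • v` of the `i`-th entry of `u`. -/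
def pertAt (u : Fin n → R) (i : Fin n) (v : R) (t : ℂ) : Fin n → R :=
  fun k => u k + if k = i then t • v else 0

omit [FiniteDimensional ℂ R] in
lemma eval_aeval_pert (u : Fin n → R) (i : Fin n) (v : R) (t : ℂ) (q : MvPolynomial (Fin n) ℂ) :
    (aeval (pert u i v) q).eval (algebraMap ℂ R t) = aeval (pertAt u i v t) q := by
  induction q using MvPolynomial.induction_on with
  | C a => simp [Polynomial.algebraMap_apply]
  | add p q hp hq => simp [hp, hq]
  | mul_X p k hp =>
    rw [map_mul, map_mul, Polynomial.eval_mul, hp, aeval_X, aeval_X]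
    congr 1
    unfold pert pertAt
    split_ifs with h
    · simp only [Polynomial.eval_add, Polynomial.eval_C, Polynomial.eval_mul, Polynomial.eval_X,
        Algebra.smul_def]
    · simp

omit [FiniteDimensional ℂ R] in
lemma coeff_zero_aeval_pert (u : Fin n → R) (i : Fin n) (v : R) (q : MvPolynomial (Fin n) ℂ) :
    (aeval (pert u i v) q).coeff 0 = aeval u q := by
  induction q using MvPolynomial.induction_on with
  | C a => simp [Polynomial.algebraMap_apply]
  | add p q hp hq => simp [hp, hq]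
  | mul_X p k hp =>
    rw [map_mul, map_mul, Polynomial.mul_coeff_zero, hp, aeval_X, aeval_X]
    congr 1
    unfold pert
    split_ifs with h
    · simp
    · simp

omit [FiniteDimensional ℂ R] in
lemma coeff_one_aeval_pert (u : Fin n → R) (i : Fin n) (v : R) (q : MvPolynomial (Fin n) ℂ) :
    (aeval (pert u i v) q).coeff 1 = v * aeval u (pderiv i q) := by
  induction q using MvPolynomial.induction_on with
  | C a => simp [Polynomial.algebraMap_apply]
  | add p q hp hq => simp [hp, hq, mul_add]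
  | mul_X p k hp =>
    rw [map_mul, Polynomial.mul_coeff_one, hp, coeff_zero_aeval_pert, pderiv_mul, map_add, map_mul,
      map_mul, aeval_X, aeval_X]
    have h0 : (pert u i v k).coeff 0 = u k := by
      unfold pert
      split_ifs with h
      · simp
      · simp
    have h1 : (pert u i v k).coeff 1 = v * aeval u (pderiv i (X k : MvPolynomial (Fin n) ℂ)) := by
      unfold pert
      rw [pderiv_X]
      by_cases h : k = i
      · subst h
        simp [Polynomial.coeff_C]
      · simp [h]
    rw [h0, h1]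
    ring

lemma card_le_finrank_of_mem {ι : Type*} [Fintype ι] {v : ι → R} {S : Submodule ℂ R}
    (hv : LinearIndependent ℂ v) (hS : ∀ j, v j ∈ S) : Fintype.card ι ≤ Module.finrank ℂ S := by
  rw [← finrank_span_eq_card hv]
  exact Submodule.finrank_mono (Submodule.span_le.mpr (by rintro _ ⟨j, rfl⟩; exact hS j))

lemma exists_polys (u : Fin n → R) (e : ℕ) :
    ∃ q : Fin (Module.finrank ℂ (W u e)) → MvPolynomial (Fin n) ℂ,
      (∀ j, (q j).totalDegree ≤ e) ∧ LinearIndependent ℂ (fun j => aeval u (q j)) ∧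
      Submodule.span ℂ (Set.range fun j => aeval u (q j)) = W u e := by
  let b := Module.finBasis ℂ (W u e)
  have h : ∀ j, ∃ p : MvPolynomial (Fin n) ℂ, p.totalDegree ≤ e ∧ aeval u p = (b j : R) :=
    fun j => mem_W.mp (b j).2
  choose q hq hqb using h
  refine ⟨q, hq, ?_, ?_⟩
  · have h1 : (fun j => aeval u (q j)) = (W u e).subtype ∘ b := by
      funext j; simp [hqb]
    rw [h1]
    exact b.linearIndependent.map' (W u e).subtype (Submodule.ker_subtype _)
  · have h1 : (fun j => aeval u (q j)) = (W u e).subtype ∘ b := by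
      funext j; simp [hqb]
    rw [h1, Set.range_comp, Submodule.span_image, b.span_eq, Submodule.map_top,
      Submodule.range_subtype]

lemma eventually_finrank_le (u : Fin n → R) (i : Fin n) (v : R) (e : ℕ) :
    ∀ᶠ t in 𝓝 (0 : ℂ), Module.finrank ℂ (W u e) ≤ Module.finrank ℂ (W (pertAt u i v t) e) := by
  obtain ⟨q, hq, hli, -⟩ := exists_polys u e
  have := eventually_linearIndependent (fun j => aeval (pert u i v) (q j)) (by
    convert hli using 2 with j
    rw [← Polynomial.coeff_zero_eq_eval_zero, coeff_zero_aeval_pert])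
  filter_upwards [this] with t ht
  have h2 := card_le_finrank_of_mem (S := W (pertAt u i v t) e) ht (fun j => by
    rw [eval_aeval_pert]
    exact mem_W.mpr ⟨q j, hq j, rfl⟩)
  simpa using h2

lemma eventually_finrank_lt (u : Fin n → R) (i : Fin n) (v : R) (e : ℕ)
    (p : MvPolynomial (Fin n) ℂ) (hp : p.totalDegree ≤ e) (hp0 : aeval u p = 0)
    (hnot : v * aeval u (pderiv i p) ∉ W u e) :
    ∀ᶠ t in 𝓝 (0 : ℂ), t ≠ 0 →
      Module.finrank ℂ (W u e) < Module.finrank ℂ (W (pertAt u i v t) e) := by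
  obtain ⟨q, hq, hli, hspan⟩ := exists_polys u e
  let P := aeval (pert u i v) p
  have hP : P.divX * Polynomial.X = P := by
    have := Polynomial.divX_mul_X_add P
    have h0 : P.coeff 0 = 0 := by rw [coeff_zero_aeval_pert, hp0]
    rwa [h0, Polynomial.C_0, add_zero] at this
  have hP0 : P.divX.eval 0 = v * aeval u (pderiv i p) := by
    rw [← Polynomial.coeff_zero_eq_eval_zero, Polynomial.coeff_divX, zero_add,
      coeff_one_aeval_pert]
  let G : Fin (Module.finrank ℂ (W u e) + 1) → Polynomial R :=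
    Fin.cons P.divX (fun j => aeval (pert u i v) (q j))
  have hG0 : (fun j => (G j).eval 0) =
      (Fin.cons (v * aeval u (pderiv i p)) (fun j => aeval u (q j)) :
        Fin (Module.finrank ℂ (W u e) + 1) → R) := by
    funext j
    refine Fin.cases ?_ (fun j => ?_) j
    · simp [G, hP0]
    · simp only [G, Fin.cons_succ]
      rw [← Polynomial.coeff_zero_eq_eval_zero, coeff_zero_aeval_pert]
  have hlin : LinearIndependent ℂ (fun j => (G j).eval 0) := by
    rw [hG0, linearIndependent_finCons]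
    exact ⟨hli, by rw [hspan]; exact hnot⟩
  filter_upwards [eventually_linearIndependent G hlin] with t ht htne
  have h2 := card_le_finrank_of_mem (S := W (pertAt u i v t) e) ht (fun j => by
    refine Fin.cases ?_ (fun j => ?_) j
    · simp only [G, Fin.cons_zero]
      have h3 : (P.divX).eval (algebraMap ℂ R t) = t⁻¹ • aeval (pertAt u i v t) p := by
        rw [← eval_aeval_pert]
        change _ = t⁻¹ • P.eval _
        conv_rhs => rw [← hP]
        rw [Polynomial.eval_mul, Polynomial.eval_X, mul_comm, ← Algebra.smul_def, smul_smul,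
          inv_mul_cancel₀ htne, one_smul]
      rw [h3]
      exact Submodule.smul_mem _ _ (mem_W.mpr ⟨p, hp, rfl⟩)
    · simp only [G, Fin.cons_succ]
      rw [eval_aeval_pert]
      exact mem_W.mpr ⟨q j, hq j, rfl⟩)
  simpa using h2

/-- The first-order condition satisfied by a generic `u`. -/
lemma mul_aeval_pderiv_mem (𝔪 : Ideal R) (E : ℕ) (u : Fin n → R) (hu : ∀ i, u i ∈ 𝔪)
    (hE : W u E = ⊤)
    (hmax : ∀ u' : Fin n → R, (∀ i, u' i ∈ 𝔪) → W u' E = ⊤ →
      ∑ e ∈ Finset.range (E + 1), Module.finrank ℂ (W u' e) ≤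
        ∑ e ∈ Finset.range (E + 1), Module.finrank ℂ (W u e))
    {e : ℕ} (he : e ≤ E) (p : MvPolynomial (Fin n) ℂ) (hp : p.totalDegree ≤ e)
    (hp0 : aeval u p = 0) (i : Fin n) {v : R} (hv : v ∈ 𝔪) :
    v * aeval u (pderiv i p) ∈ W u e := by
  by_contra hnot
  have h1 : ∀ᶠ t in 𝓝 (0 : ℂ), ∀ e' ∈ Finset.range (E + 1),
      Module.finrank ℂ (W u e') ≤ Module.finrank ℂ (W (pertAt u i v t) e') := by
    rw [Finset.eventually_all]
    exact fun e' _ => eventually_finrank_le u i v e'
  have h2 := eventually_finrank_lt u i v e p hp hp0 hnot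
  have h3 : ∃ᶠ t in 𝓝 (0 : ℂ), t ≠ 0 := by
    have : (𝓝[≠] (0 : ℂ)).NeBot := inferInstance
    exact (frequently_iff_neBot.mpr this)
  obtain ⟨t, ht0, ht1, ht2⟩ := (h3.and_eventually (h1.and h2)).exists
  have h4 := ht2 ht0
  have hmem : ∀ k, pertAt u i v t k ∈ 𝔪 := by
    intro k
    unfold pertAt
    refine 𝔪.add_mem (hu k) ?_
    split_ifs
    · rw [Algebra.smul_def]
      exact 𝔪.mul_mem_left _ hv
    · exact 𝔪.zero_mem
  have htop : W (pertAt u i v t) E = ⊤ := by
    apply Submodule.eq_top_of_finrank_eq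
    apply le_antisymm (Submodule.finrank_le _)
    have := ht1 E (by simp)
    rwa [hE, finrank_top] at this
  have h5 := hmax _ hmem htop
  have h6 := Finset.sum_lt_sum ht1 ⟨e, by simp; omega, h4⟩
  omega

end Semicontinuity

section Main

variable {R : Type*} [CommRing R] [Algebra ℂ R] {n : ℕ}

lemma mul_mem_W {u : Fin n → R} {e : ℕ} {x : R} (hx : x ∈ W u e) (a : Fin n) :
    u a * x ∈ W u (e + 1) := by
  rw [mem_W] at hx ⊢
  obtain ⟨p, hp, rfl⟩ := hx
  refine ⟨X a * p, ?_, by simp⟩
  refine (totalDegree_mul _ _).trans ?_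
  rw [totalDegree_X]
  omega

/-- The induction step: passing from `r` to `pderiv i r`. -/
lemma step (𝔪 : Ideal R) (E : ℕ) (u : Fin n → R) (hu : ∀ i, u i ∈ 𝔪)
    (hgen : ∀ e ≤ E, ∀ p : MvPolynomial (Fin n) ℂ, p.totalDegree ≤ e → aeval u p = 0 →
      ∀ i, ∀ v ∈ 𝔪, v * aeval u (pderiv i p) ∈ W u e)
    (d k m : ℕ) (hE : d + k + 1 ≤ E) (r : MvPolynomial (Fin n) ℂ) (hr : r.totalDegree ≤ m + 1)
    (hmk : m + k = d)
    (hQ : ∀ h : MvPolynomial (Fin n) ℂ, h.IsHomogeneous (2 * k) → aeval u (h * r) ∈ W u (d + k))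
    (i : Fin n) (h : MvPolynomial (Fin n) ℂ) (hh : h.IsHomogeneous (2 * k + 1 + 1)) :
    aeval u (h * pderiv i r) ∈ W u (d + k + 1) := by
  let L : MvPolynomial (Fin n) ℂ →ₗ[ℂ] R :=
    (aeval u).toLinearMap ∘ₗ (LinearMap.mulRight ℂ (pderiv i r))
  have hL : ∀ h, L h = aeval u (h * pderiv i r) := fun h => rfl
  rw [← hL]
  refine homog_induction L (W u (d + k + 1)) (m := 2 * k + 1) ?_ h hh
  intro a h1 hh1
  let L' : MvPolynomial (Fin n) ℂ →ₗ[ℂ] R := L ∘ₗ (LinearMap.mulLeft ℂ (X a))
  have hL' : ∀ h, L' h = L (X a * h) := fun h => rfl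
  rw [← hL']
  refine homog_induction L' (W u (d + k + 1)) (m := 2 * k) ?_ h1 hh1
  intro b h' hh'
  rw [hL', hL]
  obtain ⟨q, hq, hqe⟩ := mem_W.mp (hQ h' hh')
  have hPdeg : (h' * r - q).totalDegree ≤ d + k + 1 := by
    refine (totalDegree_sub _ _).trans (max_le ?_ (by omega))
    refine (totalDegree_mul _ _).trans ?_
    have := hh'.totalDegree_le
    omega
  have hP0 : aeval u (h' * r - q) = 0 := by rw [map_sub, hqe, sub_self]
  have h1 := hgen _ hE _ hPdeg hP0 i (u a * u b) (𝔪.mul_mem_left _ (hu b))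
  have hhom : (X b * pderiv i h').IsHomogeneous (2 * k) := by
    rcases Nat.eq_zero_or_pos k with rfl | hk
    · have h0 : pderiv i h' = 0 := by
        have := totalDegree_eq_zero_iff_eq_C.mp (Nat.le_zero.mp hh'.totalDegree_le)
        rw [this, pderiv_C]
      rw [h0, mul_zero]
      exact isHomogeneous_zero _ _ _
    · have h2 := (isHomogeneous_X ℂ b).mul (hh'.pderiv (i := i))
      have h3 : 1 + (2 * k - 1) = 2 * k := by omega
      rwa [h3] at h2
  have h2 := mul_mem_W (hQ _ hhom) a
  have h3 : aeval u (X a * X b * pderiv i q) ∈ W u (d + k + 1) := by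
    refine mem_W.mpr ⟨_, ?_, rfl⟩
    rcases Nat.eq_zero_or_pos (d + k) with h0 | hpos
    · rw [h0] at hq
      rw [totalDegree_eq_zero_iff_eq_C.mp (Nat.le_zero.mp hq), pderiv_C, mul_zero, totalDegree_zero]
      omega
    · obtain ⟨j, hj⟩ : ∃ j, d + k = j + 1 := ⟨d + k - 1, by omega⟩
      rw [hj] at hq
      have h4 := totalDegree_pderiv_le q i hq
      refine (totalDegree_mul _ _).trans ?_
      have h5 : (X a * X b : MvPolynomial (Fin n) ℂ).totalDegree ≤ 2 := by
        refine (totalDegree_mul _ _).trans ?_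
        rw [totalDegree_X, totalDegree_X]
      omega
  have h4 : aeval u (X a * (X b * h') * pderiv i r) =
      u a * u b * aeval u (pderiv i (h' * r - q)) - u a * aeval u (X b * pderiv i h' * r) +
        aeval u (X a * X b * pderiv i q) := by
    simp only [map_sub, pderiv_mul, map_add, map_mul, aeval_X]
    ring
  rw [h4]
  exact add_mem (sub_mem h1 h2) h3

/-- All the iterated steps. -/
lemma iterate (𝔪 : Ideal R) (E : ℕ) (u : Fin n → R) (hu : ∀ i, u i ∈ 𝔪)
    (hgen : ∀ e ≤ E, ∀ p : MvPolynomial (Fin n) ℂ, p.totalDegree ≤ e → aeval u p = 0 →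
      ∀ i, ∀ v ∈ 𝔪, v * aeval u (pderiv i p) ∈ W u e)
    (d : ℕ) (hE : 2 * d + 1 ≤ E) (p : MvPolynomial (Fin n) ℂ) (hp : p.totalDegree ≤ d + 1)
    (hp1 : ∃ s ∈ p.support, s.degree = d + 1) (hp0 : aeval u p = 0) (k : ℕ) (hk : k ≤ d + 1) :
    ∃ r : MvPolynomial (Fin n) ℂ, r.totalDegree ≤ d + 1 - k ∧
      (∃ s ∈ r.support, s.degree = d + 1 - k) ∧
      ∀ h : MvPolynomial (Fin n) ℂ, h.IsHomogeneous (2 * k) → aeval u (h * r) ∈ W u (d + k) := by
  induction k with
  | zero =>
    refine ⟨p, hp, hp1, fun h _ => ?_⟩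
    rw [map_mul, hp0, mul_zero]
    exact Submodule.zero_mem _
  | succ k ih =>
    obtain ⟨r, hr, hr1, hr2⟩ := ih (by omega)
    obtain ⟨m, hm⟩ : ∃ m, d + 1 - k = m + 1 := ⟨d - k, by omega⟩
    rw [hm] at hr hr1
    obtain ⟨i, hi⟩ := exists_pderiv_top r hr1
    refine ⟨pderiv i r, ?_, ?_, ?_⟩
    · have := totalDegree_pderiv_le r i hr
      omega
    · obtain ⟨s, hs, hs1⟩ := hi
      exact ⟨s, hs, by omega⟩
    · intro h hh
      exact step 𝔪 E u hu hgen d k m (by omega) r hr (by omega) hr2 i h hh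

lemma W_le_of_homog (u : Fin n → R) (m : ℕ)
    (H : ∀ h : MvPolynomial (Fin n) ℂ, h.IsHomogeneous (m + 1) → aeval u h ∈ W u m) (e : ℕ) :
    W u e ≤ W u m := by
  have key : ∀ q : MvPolynomial (Fin n) ℂ, q.totalDegree ≤ m + 1 → aeval u q ∈ W u m := by
    intro q hq
    rw [← sum_homogeneousComponent q, map_sum]
    refine Submodule.sum_mem _ fun i hi => ?_
    rw [Finset.mem_range] at hi
    rcases Nat.lt_or_ge m i with him | him
    · have : i = m + 1 := by omega
      subst this
      exact H _ (homogeneousComponent_isHomogeneous _ _)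
    · exact mem_W.mpr ⟨_, (homogeneousComponent_isHomogeneous i q).totalDegree_le.trans him, rfl⟩
  have h2 : ∀ j, ∀ h : MvPolynomial (Fin n) ℂ, h.IsHomogeneous (m + j + 1) →
      aeval u h ∈ W u m := by
    intro j
    induction j with
    | zero => exact H
    | succ j ih =>
      intro h hh
      refine homog_induction (aeval u).toLinearMap (W u m) (m := m + j + 1) ?_ h hh
      intro a h' hh'
      obtain ⟨q, hq, hqe⟩ := mem_W.mp (ih h' hh')
      have : (aeval u).toLinearMap (X a * h') = aeval u (X a * q) := by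
        simp [hqe]
      rw [this]
      apply key
      refine (totalDegree_mul _ _).trans ?_
      rw [totalDegree_X]
      omega
  intro x hx
  obtain ⟨p, -, rfl⟩ := mem_W.mp hx
  rw [← sum_homogeneousComponent p, map_sum]
  refine Submodule.sum_mem _ fun i hi => ?_
  rcases Nat.lt_or_ge m i with him | him
  · obtain ⟨j, hj⟩ : ∃ j, i = m + j + 1 := ⟨i - m - 1, by omega⟩
    exact h2 j _ (hj ▸ homogeneousComponent_isHomogeneous _ _)
  · exact mem_W.mpr ⟨_, (homogeneousComponent_isHomogeneous i p).totalDegree_le.trans him, rfl⟩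

lemma exists_W_eq_top [FiniteDimensional ℂ R] (x : Fin n → R)
    (hx : Function.Surjective (aeval x : MvPolynomial (Fin n) ℂ →ₐ[ℂ] R)) :
    ∃ E, W x E = ⊤ := by
  let b := Module.finBasis ℂ R
  choose q hq using fun j => hx (b j)
  refine ⟨Finset.univ.sup fun j => (q j).totalDegree, ?_⟩
  rw [eq_top_iff, ← b.span_eq, Submodule.span_le]
  rintro _ ⟨j, rfl⟩
  exact mem_W.mpr ⟨q j, Finset.le_sup (f := fun j => (q j).totalDegree) (Finset.mem_univ j), hq j⟩

/-- **Main algebraic theorem.** Let `R` be a finite-dimensional commutative `ℂ`-algebra generated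
by `n` elements of an ideal `𝔪`, and suppose that every `u : Fin n → R` satisfies a nonzero
polynomial relation of degree at most `D`. Then there is `u` with entries in `𝔪` such that the
polynomials of degree at most `2 D` in `u` exhaust `R`. -/
theorem exists_spanning [FiniteDimensional ℂ R] (𝔪 : Ideal R) (x : Fin n → R)
    (hx : ∀ i, x i ∈ 𝔪)
    (hsurj : Function.Surjective (aeval x : MvPolynomial (Fin n) ℂ →ₐ[ℂ] R)) (D : ℕ)
    (hD : ∀ u : Fin n → R, ∃ p : MvPolynomial (Fin n) ℂ, p ≠ 0 ∧ p.totalDegree ≤ D ∧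
      aeval u p = 0) :
    ∃ u : Fin n → R, (∀ i, u i ∈ 𝔪) ∧ W u (2 * D) = ⊤ := by
  obtain ⟨E₀, hE₀⟩ := exists_W_eq_top x hsurj
  set E := max E₀ (2 * D) with hEdef
  have hxE : W x E = ⊤ := by
    rw [eq_top_iff, ← hE₀]
    exact W_mono x (le_max_left _ _)
  let T : Set ℕ := {s | ∃ u : Fin n → R, (∀ i, u i ∈ 𝔪) ∧ W u E = ⊤ ∧
    ∑ e ∈ Finset.range (E + 1), Module.finrank ℂ (W u e) = s}
  have hTne : T.Nonempty := ⟨_, x, hx, hxE, rfl⟩
  have hTbdd : BddAbove T := by
    refine ⟨∑ e ∈ Finset.range (E + 1), Module.finrank ℂ R, ?_⟩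
    rintro _ ⟨u, -, -, rfl⟩
    exact Finset.sum_le_sum fun e _ => Submodule.finrank_le _
  obtain ⟨u, hu, huE, husum⟩ := Nat.sSup_mem hTne hTbdd
  have hmax : ∀ u' : Fin n → R, (∀ i, u' i ∈ 𝔪) → W u' E = ⊤ →
      ∑ e ∈ Finset.range (E + 1), Module.finrank ℂ (W u' e) ≤
        ∑ e ∈ Finset.range (E + 1), Module.finrank ℂ (W u e) := by
    intro u' hu' hu'E
    rw [husum]
    exact le_csSup hTbdd ⟨u', hu', hu'E, rfl⟩
  have hgen : ∀ e ≤ E, ∀ p : MvPolynomial (Fin n) ℂ, p.totalDegree ≤ e → aeval u p = 0 →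
      ∀ i, ∀ v ∈ 𝔪, v * aeval u (pderiv i p) ∈ W u e :=
    fun e he p hp hp0 i v hv => mul_aeval_pderiv_mem 𝔪 E u hu huE hmax he p hp hp0 i hv
  refine ⟨u, hu, ?_⟩
  obtain ⟨p, hpne, hpD, hp0⟩ := hD u
  rcases Nat.eq_zero_or_pos p.totalDegree with h0 | hpos
  · -- `p` is a nonzero constant, hence `R` is trivial
    rw [totalDegree_eq_zero_iff_eq_C] at h0
    have hc : coeff 0 p ≠ 0 := by
      intro hc
      rw [hc, C_0] at h0
      exact hpne h0
    rw [h0, aeval_C] at hp0
    have h1 : (1 : R) = 0 := by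
      have := congrArg (fun y => algebraMap ℂ R (coeff 0 p)⁻¹ * y) hp0
      simp only [mul_zero] at this
      rwa [← map_mul, inv_mul_cancel₀ hc, map_one] at this
    rw [eq_top_iff]
    intro y _
    have : y = 0 := by rw [← mul_one y, h1, mul_zero]
    rw [this]
    exact Submodule.zero_mem _
  · obtain ⟨d, hd⟩ : ∃ d, p.totalDegree = d + 1 := ⟨p.totalDegree - 1, by omega⟩
    have hp1 : ∃ s ∈ p.support, s.degree = d + 1 := by
      have hne : p.support.Nonempty := by
        rw [Finset.nonempty_iff_ne_empty]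
        simpa using hpne
      obtain ⟨s, hs, hs'⟩ := Finset.exists_mem_eq_sup p.support hne (fun s => s.sum fun _ e => e)
      refine ⟨s, hs, ?_⟩
      rw [← hd, totalDegree, hs']
      rfl
    have hE1 : 2 * d + 1 ≤ E := by
      have : 2 * D ≤ E := le_max_right _ _
      omega
    obtain ⟨r, hr, ⟨s, hs, hs0⟩, hr2⟩ :=
      iterate 𝔪 E u hu hgen d hE1 p hd.le hp1 hp0 (d + 1) le_rfl
    simp only [tsub_self, Nat.le_zero] at hr hs0
    rw [totalDegree_eq_zero_iff_eq_C] at hr
    have hs00 : s = 0 := by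
      rwa [Finsupp.degree_eq_zero_iff] at hs0
    subst hs00
    rw [mem_support_iff] at hs
    have H : ∀ h : MvPolynomial (Fin n) ℂ, h.IsHomogeneous (2 * d + 1 + 1) →
        aeval u h ∈ W u (2 * d + 1) := by
      intro h hh
      have h1 := hr2 h (by
        have h0 : 2 * (d + 1) = 2 * d + 1 + 1 := by ring
        rw [h0]; exact hh)
      rw [hr, map_mul, aeval_C, mul_comm, ← Algebra.smul_def] at h1
      have h2 := Submodule.smul_mem _ (coeff 0 r)⁻¹ h1
      rw [smul_smul, inv_mul_cancel₀ hs, one_smul] at h2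
      refine W_mono u ?_ h2
      omega
    have h3 := W_le_of_homog u _ H E
    rw [huE] at h3
    rw [eq_top_iff]
    exact h3.trans (W_mono u (by omega))

end Main

end

end Pool.Agent.GermDegree
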