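import Pool.Agent.GermDegree.Algebra

/-!
# Counting monomials
-/

set_option autoImplicit false

open MvPolynomial

namespace Pool.Agent.GermDegree

noncomputable section

variable {n D : ℕ}

/-- The exponent vector (in `n` variables) attached to a multiset of size `D` of `{0, …, n}`. -/
def expo (z : Sym (Fin (n + 1)) D) : Fin n →₀ ℕ :=
  Finsupp.equivFunOnFinite.symm fun i => Multiset.count i.succ (z : Multiset (Fin (n + 1)))

lemma expo_apply (z : Sym (Fin (n + 1)) D) (i : Fin n) :
    expo z i = Multiset.count i.succ (z : Multiset (Fin (n + 1))) := rfl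

lemma count_zero_add_sum (z : Sym (Fin (n + 1)) D) :
    Multiset.count 0 (z : Multiset (Fin (n + 1))) + ∑ i, expo z i = D := by
  have h := Multiset.sum_count_eq_card (s := Finset.univ)
    (m := (z : Multiset (Fin (n + 1)))) (fun a _ => Finset.mem_univ a)
  rw [Sym.card_coe, Fin.sum_univ_succ] at h
  exact h

lemma expo_injective : Function.Injective (expo : Sym (Fin (n + 1)) D → (Fin n →₀ ℕ)) := by
  intro z z' h
  have h0 := count_zero_add_sum z
  have h0' := count_zero_add_sum z'
  rw [h] at h0
  apply Sym.coe_injective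
  ext a
  refine Fin.cases ?_ (fun i => ?_) a
  · omega
  · rw [← expo_apply, ← expo_apply, h]

lemma degree_expo_le (z : Sym (Fin (n + 1)) D) : (expo z).sum (fun _ e => e) ≤ D := by
  have h0 := count_zero_add_sum z
  rw [Finsupp.sum_fintype _ _ (by simp)]
  omega

/-- If there are more monomials of degree at most `D` than `dim R`, then every `u` satisfies a
nonzero polynomial relation of degree at most `D`. -/
lemma exists_relation {R : Type*} [CommRing R] [Algebra ℂ R] [FiniteDimensional ℂ R]
    (h : Module.finrank ℂ R < (n + D).choose n) (u : Fin n → R) :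
    ∃ p : MvPolynomial (Fin n) ℂ, p ≠ 0 ∧ p.totalDegree ≤ D ∧ aeval u p = 0 := by
  classical
  have hcard : Fintype.card (Sym (Fin (n + 1)) D) = (n + D).choose n := by
    rw [Sym.card_sym_eq_choose, Fintype.card_fin]
    have : n + 1 + D - 1 = n + D := by omega
    rw [this]
    rw [← Nat.choose_symm (Nat.le_add_left D n)]
    congr 1
    omega
  have hnot : ¬ LinearIndependent ℂ
      (fun z : Sym (Fin (n + 1)) D => aeval u (monomial (expo z) (1 : ℂ))) := by
    intro hli
    have := hli.fintype_card_le_finrank
    omega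
  rw [Fintype.not_linearIndependent_iff] at hnot
  obtain ⟨g, hg, z₀, hz₀⟩ := hnot
  refine ⟨∑ z, monomial (expo z) (g z), ?_, ?_, ?_⟩
  · intro h0
    have h1 := congrArg (coeff (expo z₀)) h0
    rw [coeff_sum, coeff_zero, Finset.sum_eq_single z₀] at h1
    · rw [coeff_monomial, if_pos rfl] at h1
      exact hz₀ h1
    · intro z _ hz
      rw [coeff_monomial, if_neg]
      exact fun h => hz (expo_injective h)
    · simp
  · refine totalDegree_finsetSum_le fun z _ => ?_
    exact (totalDegree_monomial_le _ _).trans (degree_expo_le z)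
  · rw [map_sum, ← hg]
    refine Finset.sum_congr rfl fun z _ => ?_
    have : monomial (expo z) (g z) = g z • monomial (expo z) (1 : ℂ) := by
      rw [smul_monomial, smul_eq_mul, mul_one]
    rw [this, map_smul]

/-- The smallest `D` with `dim < (n + D).choose n` satisfies `D ^ n ≤ n! * dim`. -/
lemma exists_degree_bound (hn : 1 ≤ n) (N : ℕ) :
    ∃ D : ℕ, N < (n + D).choose n ∧ D ^ n ≤ n.factorial * N := by
  have hex : ∃ D : ℕ, N < (n + D).choose n := by
    refine ⟨N, ?_⟩
    have h1 : N + 1 ≤ (n + N).choose n := by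
      have := Nat.choose_symm (n := n + N) (k := n) (by omega)
      rw [← this]
      have h2 : n + N - n = N := by omega
      rw [h2]
      have h3 : (1 + N).choose N ≤ (n + N).choose N := Nat.choose_le_choose _ (by omega)
      have h4 : (1 + N).choose N = N + 1 := by
        rw [add_comm, Nat.choose_succ_self_right]
      omega
    omega
  classical
  refine ⟨Nat.find hex, Nat.find_spec hex, ?_⟩
  rcases Nat.eq_zero_or_pos (Nat.find hex) with h0 | hpos
  · rw [h0, zero_pow (by omega)]
    exact Nat.zero_le _
  · obtain ⟨d, hd⟩ : ∃ d, Nat.find hex = d + 1 := ⟨Nat.find hex - 1, by omega⟩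
    have h1 : ¬ N < (n + d).choose n := Nat.find_min hex (by omega)
    rw [not_lt] at h1
    rw [hd]
    calc (d + 1) ^ n ≤ (d + 1).ascFactorial n := Nat.pow_succ_le_ascFactorial _ _
      _ = n.factorial * (d + n).choose n := Nat.ascFactorial_eq_factorial_mul_choose _ _
      _ ≤ n.factorial * N := by
        refine Nat.mul_le_mul_left _ ?_
        rwa [add_comm]

/-- The algebraic theorem with explicit bound. -/
theorem exists_spanning' {R : Type*} [CommRing R] [Algebra ℂ R] [FiniteDimensional ℂ R]
    (hn : 1 ≤ n) (𝔪 : Ideal R) (x : Fin n → R) (hx : ∀ i, x i ∈ 𝔪)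
    (hsurj : Function.Surjective (aeval x : MvPolynomial (Fin n) ℂ →ₐ[ℂ] R)) :
    ∃ D : ℕ, D ^ n ≤ n.factorial * Module.finrank ℂ R ∧
      ∃ u : Fin n → R, (∀ i, u i ∈ 𝔪) ∧ W u (2 * D) = ⊤ := by
  obtain ⟨D, hD, hD'⟩ := exists_degree_bound (n := n) hn (Module.finrank ℂ R)
  exact ⟨D, hD', exists_spanning 𝔪 x hx hsurj D fun u => exists_relation hD u⟩

end

end Pool.Agent.GermDegree
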