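import Mathlib

/-!
# Isolated critical points of holomorphic function germs: definitions

Everything is at the origin of `ℂⁿ = (Fin n → ℂ)`.
-/

set_option autoImplicit false

open Filter Topology

namespace Pool.Agent.GermDegree

noncomputable section

/-- The ring `𝓞_{ℂⁿ,0}` of germs at the origin of holomorphic functions of `n` variables, realised
as the subring of the ring of all germs at `0` of functions `ℂⁿ → ℂ` which consists of the germs of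
functions that are (complex-)analytic at `0`. -/
def HolGerm (n : ℕ) : Subring (Germ (𝓝 (0 : Fin n → ℂ)) ℂ) where
  carrier := {g | ∃ f : (Fin n → ℂ) → ℂ, AnalyticAt ℂ f 0 ∧ (f : Germ (𝓝 (0 : Fin n → ℂ)) ℂ) = g}
  mul_mem' := by
    rintro _ _ ⟨f, hf, rfl⟩ ⟨g, hg, rfl⟩
    exact ⟨f * g, hf.mul hg, rfl⟩
  one_mem' := ⟨1, analyticAt_const, rfl⟩
  add_mem' := by
    rintro _ _ ⟨f, hf, rfl⟩ ⟨g, hg, rfl⟩
    exact ⟨f + g, hf.add hg, rfl⟩
  zero_mem' := ⟨0, analyticAt_const, rfl⟩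
  neg_mem' := by
    rintro _ ⟨f, hf, rfl⟩
    exact ⟨-f, hf.neg, rfl⟩

/-- The constants make `𝓞_{ℂⁿ,0}` into a `ℂ`-algebra. -/
def constHom (n : ℕ) : ℂ →+* HolGerm n where
  toFun c := ⟨((fun _ => c : (Fin n → ℂ) → ℂ) : Germ (𝓝 (0 : Fin n → ℂ)) ℂ),
    ⟨fun _ => c, analyticAt_const, rfl⟩⟩
  map_one' := rfl
  map_mul' _ _ := rfl
  map_zero' := rfl
  map_add' _ _ := rfl

instance (n : ℕ) : Algebra ℂ (HolGerm n) := (constHom n).toAlgebra

/-- The Jacobian ideal `⟨∂f/∂x₁, …, ∂f/∂xₙ⟩` of `f` in `𝓞_{ℂⁿ,0}`. -/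
def jacobianIdeal {n : ℕ} (f : (Fin n → ℂ) → ℂ) : Ideal (HolGerm n) :=
  Ideal.span {g | ∃ i : Fin n, (g : Germ (𝓝 (0 : Fin n → ℂ)) ℂ) =
    ((fun x => fderiv ℂ f x (Pi.single i 1) : (Fin n → ℂ) → ℂ) : Germ (𝓝 (0 : Fin n → ℂ)) ℂ)}

/-- `f` is (a representative of) a holomorphic germ `(ℂⁿ,0) → (ℂ,0)` with an isolated critical
point at the origin: `f` is analytic at `0`, `f 0 = 0`, `df(0) = 0`, and the Milnor algebra
`𝓞/⟨∂f/∂x₁, …, ∂f/∂xₙ⟩` is finite-dimensional over `ℂ`. -/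
structure IsolatedCriticalPoint {n : ℕ} (f : (Fin n → ℂ) → ℂ) : Prop where
  analyticAt : AnalyticAt ℂ f 0
  map_zero : f 0 = 0
  critical : fderiv ℂ f 0 = 0
  finite : Module.Finite ℂ (HolGerm n ⧸ jacobianIdeal f)

/-- The Milnor number `μ(f) = dim_ℂ 𝓞/⟨∂f/∂x₁, …, ∂f/∂xₙ⟩`. -/
def milnorNumber {n : ℕ} (f : (Fin n → ℂ) → ℂ) : ℕ :=
  Module.finrank ℂ (HolGerm n ⧸ jacobianIdeal f)

/-- `φ` is (a representative of) a local biholomorphism `(ℂⁿ,0) → (ℂⁿ,0)`: it is analytic at `0`,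
fixes `0`, and has a two-sided local inverse with the same properties. -/
structure LocalBiholomorphism {n : ℕ} (φ : (Fin n → ℂ) → (Fin n → ℂ)) : Prop where
  analyticAt : AnalyticAt ℂ φ 0
  map_zero : φ 0 = 0
  exists_inverse : ∃ ψ : (Fin n → ℂ) → (Fin n → ℂ), AnalyticAt ℂ ψ 0 ∧ ψ 0 = 0 ∧
    (∀ᶠ x in 𝓝 0, ψ (φ x) = x) ∧ (∀ᶠ x in 𝓝 0, φ (ψ x) = x)

/-- `f` and `g` are right equivalent: `g = f ∘ φ` near `0` for a local biholomorphism `φ`. -/
def RightEquivalent {n : ℕ} (f g : (Fin n → ℂ) → ℂ) : Prop :=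
  ∃ φ : (Fin n → ℂ) → (Fin n → ℂ), LocalBiholomorphism φ ∧ ∀ᶠ x in 𝓝 0, g x = f (φ x)

/-- The analytic order `d(f)`: the least total degree of a polynomial in `n` variables whose germ
at `0` is right equivalent to `f`. -/
def analyticOrder {n : ℕ} (f : (Fin n → ℂ) → ℂ) : ℕ :=
  sInf {d | ∃ p : MvPolynomial (Fin n) ℂ, p.totalDegree = d ∧
    RightEquivalent f (fun x => MvPolynomial.eval x p)}

end

end Pool.Agent.GermDegree
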