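import Pool.Agent.GermDegree.Defs

/-!
# The ring of germs of holomorphic functions: basic facts
-/

set_option autoImplicit false

open Filter Topology

namespace Pool.Agent.GermDegree

noncomputable section

variable {n : ℕ}

/-- The germ of an analytic function. -/
def germ (f : (Fin n → ℂ) → ℂ) (hf : AnalyticAt ℂ f 0) : HolGerm n :=
  ⟨(f : Germ (𝓝 (0 : Fin n → ℂ)) ℂ), f, hf, rfl⟩

lemma exists_germ (g : HolGerm n) : ∃ (f : (Fin n → ℂ) → ℂ) (hf : AnalyticAt ℂ f 0),
    germ f hf = g := by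
  obtain ⟨g, f, hf, rfl⟩ := g
  exact ⟨f, hf, rfl⟩

lemma germ_eq_iff {f g : (Fin n → ℂ) → ℂ} (hf : AnalyticAt ℂ f 0) (hg : AnalyticAt ℂ g 0) :
    germ f hf = germ g hg ↔ ∀ᶠ x in 𝓝 0, f x = g x := by
  rw [Subtype.ext_iff]
  exact Germ.coe_eq

lemma germ_add {f g : (Fin n → ℂ) → ℂ} (hf : AnalyticAt ℂ f 0) (hg : AnalyticAt ℂ g 0) :
    germ f hf + germ g hg = germ (fun x => f x + g x) (hf.add hg) := rfl

lemma germ_mul {f g : (Fin n → ℂ) → ℂ} (hf : AnalyticAt ℂ f 0) (hg : AnalyticAt ℂ g 0) :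
    germ f hf * germ g hg = germ (fun x => f x * g x) (hf.mul hg) := rfl

lemma germ_sub {f g : (Fin n → ℂ) → ℂ} (hf : AnalyticAt ℂ f 0) (hg : AnalyticAt ℂ g 0) :
    germ f hf - germ g hg = germ (fun x => f x - g x) (hf.sub hg) := by
  rw [sub_eq_add_neg]
  change germ _ (hf.add hg.neg) = _
  rw [germ_eq_iff]
  exact Eventually.of_forall fun x => (sub_eq_add_neg _ _).symm

lemma germ_sum {ι : Type*} (s : Finset ι) {f : ι → (Fin n → ℂ) → ℂ}
    (hf : ∀ i, AnalyticAt ℂ (f i) 0) :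
    ∑ i ∈ s, germ (f i) (hf i) =
      germ (fun x => ∑ i ∈ s, f i x) (s.analyticAt_fun_sum fun i _ => hf i) := by
  classical
  induction s using Finset.induction_on with
  | empty =>
    simp only [Finset.sum_empty]
    rfl
  | insert a s ha ih =>
    rw [Finset.sum_insert ha, ih, germ_add, germ_eq_iff]
    exact Eventually.of_forall fun x => by rw [Finset.sum_insert ha]

lemma algebraMap_eq (c : ℂ) : algebraMap ℂ (HolGerm n) c = germ (fun _ => c) analyticAt_const :=
  rfl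

/-- Evaluation of germs at the origin. -/
def val : HolGerm n →+* ℂ := Germ.valueRingHom.comp (HolGerm n).subtype

lemma val_germ {f : (Fin n → ℂ) → ℂ} (hf : AnalyticAt ℂ f 0) : val (germ f hf) = f 0 := rfl

lemma val_algebraMap (c : ℂ) : val (algebraMap ℂ (HolGerm n) c) = c := rfl

lemma isUnit_iff (g : HolGerm n) : IsUnit g ↔ val g ≠ 0 := by
  constructor
  · intro h
    exact (h.map val).ne_zero
  · intro h
    obtain ⟨f, hf, rfl⟩ := exists_germ g
    rw [val_germ] at h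
    refine IsUnit.of_mul_eq_one (germ (fun x => (f x)⁻¹) (hf.inv h)) ?_
    rw [germ_mul]
    change germ _ _ = germ (fun _ => 1) analyticAt_const
    rw [germ_eq_iff]
    filter_upwards [hf.continuousAt.eventually_ne h] with x hx
    exact mul_inv_cancel₀ hx

instance : Nontrivial (HolGerm n) := ⟨⟨0, 1, fun h => by
  have := congrArg val h
  simp at this⟩⟩

instance : IsLocalRing (HolGerm n) := by
  refine IsLocalRing.of_isUnit_or_isUnit_one_sub_self fun a => ?_
  rw [isUnit_iff, isUnit_iff, map_sub, map_one]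
  by_cases h : val a = 0
  · right
    rw [h]
    simp
  · left
    exact h

lemma mem_maximalIdeal (g : HolGerm n) : g ∈ IsLocalRing.maximalIdeal (HolGerm n) ↔ val g = 0 := by
  rw [IsLocalRing.mem_maximalIdeal, mem_nonunits_iff, isUnit_iff, not_not]

lemma analyticAt_coord (i : Fin n) (z : Fin n → ℂ) : AnalyticAt ℂ (fun x : Fin n → ℂ => x i) z :=
  (ContinuousLinearMap.proj i : (Fin n → ℂ) →L[ℂ] ℂ).analyticAt z

/-- The coordinate germs. -/
def coord (i : Fin n) : HolGerm n := germ (fun x => x i) (analyticAt_coord i 0)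

lemma coord_mem (i : Fin n) : coord i ∈ IsLocalRing.maximalIdeal (HolGerm n) := by
  rw [mem_maximalIdeal]
  rfl

/-- Hadamard's lemma. -/
lemma hadamard {f : (Fin n → ℂ) → ℂ} (hf : AnalyticAt ℂ f 0) (h0 : f 0 = 0) :
    ∃ g : Fin n → (Fin n → ℂ) → ℂ, (∀ i, AnalyticAt ℂ (g i) 0) ∧
      ∀ᶠ x in 𝓝 0, f x = ∑ i, g i x * x i := by
  obtain ⟨p, r, hp⟩ := hf
  have hrad : 0 < p.shift.radius := by
    rw [FormalMultilinearSeries.radius_shift]
    exact hp.r_pos.trans_le hp.r_le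
  have hF := p.shift.hasFPowerSeriesOnBall hrad
  refine ⟨fun i x => p.shift.sum x (Pi.single i 1), fun i => ?_, ?_⟩
  · have h1 : AnalyticAt ℂ p.shift.sum 0 := hF.analyticAt
    exact ((ContinuousLinearMap.apply ℂ ℂ (Pi.single i 1 : Fin n → ℂ)).analyticAt _).comp h1
  · have hball : ∀ᶠ x in 𝓝 (0 : Fin n → ℂ), x ∈ Metric.eball (0 : Fin n → ℂ) r :=
      Metric.eball_mem_nhds _ hp.r_pos
    filter_upwards [hball] with x hx
    have h1 := hp.hasSum hx
    have hx' : x ∈ Metric.eball (0 : Fin n → ℂ) p.shift.radius := by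
      rw [FormalMultilinearSeries.radius_shift]
      exact Metric.eball_subset_eball hp.r_le hx
    have h2 := p.shift.hasSum hx'
    have h3 := (ContinuousLinearMap.apply ℂ ℂ x).hasSum h2
    have h4 : (p 0 fun _ => x) = 0 := by
      have h5 := hp.coeff_zero fun _ => x
      rw [h5, h0]
    rw [zero_add] at h1
    rw [hasSum_nat_add_iff' 1 |>.symm] at h1
    simp only [Finset.sum_range_one, h4, sub_zero] at h1
    have h6 : f x = p.shift.sum x x := by
      refine h1.unique ?_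
      have h7 : (fun k => (p (k + 1)) fun _ => x) =
          fun b => ((ContinuousLinearMap.apply ℂ ℂ) x) ((p.shift b) fun _ => x) := by
        funext k
        rw [ContinuousLinearMap.apply_apply]
        change _ = (p (k + 1)) (Fin.snoc (fun _ => x) x)
        congr 1
        funext j
        refine Fin.lastCases ?_ (fun j => ?_) j
        · rw [Fin.snoc_last]
        · rw [Fin.snoc_castSucc]
      rw [h7]
      exact h3
    rw [h6]
    have h8 : x = ∑ i, x i • (Pi.single i 1 : Fin n → ℂ) := by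
      funext j
      simp [Finset.sum_apply, Pi.single_apply]
    conv_lhs => 
      arg 2
      rw [h8]
    rw [map_sum]
    refine Finset.sum_congr rfl fun i _ => ?_
    rw [map_smul, smul_eq_mul, mul_comm]

lemma maximalIdeal_eq : IsLocalRing.maximalIdeal (HolGerm n) =
    Ideal.span (Set.range (coord : Fin n → HolGerm n)) := by
  apply le_antisymm
  · intro g hg
    obtain ⟨f, hf, rfl⟩ := exists_germ g
    rw [mem_maximalIdeal, val_germ] at hg
    obtain ⟨h, hh, heq⟩ := hadamard hf hg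
    have : germ f hf = ∑ i, germ (h i) (hh i) * coord i := by
      simp only [coord, germ_mul]
      rw [germ_sum, germ_eq_iff]
      exact heq
    rw [this]
    exact Ideal.sum_mem _ fun i _ => Ideal.mul_mem_left _ _ (Ideal.subset_span ⟨i, rfl⟩)
  · rw [Ideal.span_le]
    rintro _ ⟨i, rfl⟩
    exact coord_mem i

/-! ### Composition with a holomorphic map germ -/

lemma tendsto_of_analyticAt {θ : (Fin n → ℂ) → (Fin n → ℂ)} (hθ : AnalyticAt ℂ θ 0)
    (hθ0 : θ 0 = 0) : Tendsto θ (𝓝 0) (𝓝 0) := by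
  have := hθ.continuousAt.tendsto
  rwa [hθ0] at this

/-- Composition with a holomorphic map germ fixing the origin. -/
def compHom (θ : (Fin n → ℂ) → (Fin n → ℂ)) (hθ : AnalyticAt ℂ θ 0) (hθ0 : θ 0 = 0) :
    HolGerm n →+* HolGerm n where
  toFun g := ⟨Germ.compTendsto (g : Germ (𝓝 (0 : Fin n → ℂ)) ℂ) θ (tendsto_of_analyticAt hθ hθ0), by
    obtain ⟨g, f, hf, rfl⟩ := g
    exact ⟨fun x => f (θ x), hf.comp_of_eq hθ hθ0, rfl⟩⟩
  map_one' := rfl
  map_mul' := by
    rintro ⟨_, f, hf, rfl⟩ ⟨_, g, hg, rfl⟩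
    rfl
  map_zero' := rfl
  map_add' := by
    rintro ⟨_, f, hf, rfl⟩ ⟨_, g, hg, rfl⟩
    rfl

lemma compHom_germ (θ : (Fin n → ℂ) → (Fin n → ℂ)) (hθ : AnalyticAt ℂ θ 0) (hθ0 : θ 0 = 0)
    {f : (Fin n → ℂ) → ℂ} (hf : AnalyticAt ℂ f 0) :
    compHom θ hθ hθ0 (germ f hf) = germ (fun x => f (θ x)) (hf.comp_of_eq hθ hθ0) := rfl

lemma compHom_compHom (θ φ : (Fin n → ℂ) → (Fin n → ℂ)) (hθ : AnalyticAt ℂ θ 0) (hθ0 : θ 0 = 0)
    (hφ : AnalyticAt ℂ φ 0) (hφ0 : φ 0 = 0) (h : ∀ᶠ x in 𝓝 0, φ (θ x) = x) (g : HolGerm n) :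
    compHom θ hθ hθ0 (compHom φ hφ hφ0 g) = g := by
  obtain ⟨f, hf, rfl⟩ := exists_germ g
  rw [compHom_germ, compHom_germ, germ_eq_iff]
  filter_upwards [h] with x hx
  rw [hx]

lemma val_compHom (θ : (Fin n → ℂ) → (Fin n → ℂ)) (hθ : AnalyticAt ℂ θ 0) (hθ0 : θ 0 = 0)
    (g : HolGerm n) : val (compHom θ hθ hθ0 g) = val g := by
  obtain ⟨f, hf, rfl⟩ := exists_germ g
  rw [compHom_germ, val_germ, val_germ, hθ0]

/-! ### Partial derivatives -/

lemma analyticAt_fderiv_apply {f : (Fin n → ℂ) → ℂ} (hf : AnalyticAt ℂ f 0) (v : Fin n → ℂ) :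
    AnalyticAt ℂ (fun x => fderiv ℂ f x v) 0 :=
  ((ContinuousLinearMap.apply ℂ ℂ v).analyticAt _).comp hf.fderiv

/-- The `i`-th partial derivative of a germ. -/
def pd (i : Fin n) (g : HolGerm n) : HolGerm n :=
  germ (fun x => fderiv ℂ (exists_germ g).choose x (Pi.single i 1))
    (analyticAt_fderiv_apply (exists_germ g).choose_spec.choose _)

lemma pd_germ (i : Fin n) {f : (Fin n → ℂ) → ℂ} (hf : AnalyticAt ℂ f 0) :
    pd i (germ f hf) = germ (fun x => fderiv ℂ f x (Pi.single i 1))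
      (analyticAt_fderiv_apply hf _) := by
  unfold pd
  rw [germ_eq_iff]
  have h := (exists_germ (germ f hf)).choose_spec.choose_spec
  rw [germ_eq_iff] at h
  have h2 := EventuallyEq.fderiv (𝕜 := ℂ) h
  filter_upwards [h2] with x hx
  rw [hx]

lemma pd_add (i : Fin n) (a b : HolGerm n) : pd i (a + b) = pd i a + pd i b := by
  obtain ⟨f, hf, rfl⟩ := exists_germ a
  obtain ⟨g, hg, rfl⟩ := exists_germ b
  rw [germ_add, pd_germ, pd_germ, pd_germ, germ_add, germ_eq_iff]
  filter_upwards [hf.eventually_analyticAt, hg.eventually_analyticAt] with x hx hx'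
  rw [fderiv_fun_add hx.differentiableAt hx'.differentiableAt]
  rfl

lemma pd_mul (i : Fin n) (a b : HolGerm n) : pd i (a * b) = pd i a * b + a * pd i b := by
  obtain ⟨f, hf, rfl⟩ := exists_germ a
  obtain ⟨g, hg, rfl⟩ := exists_germ b
  rw [germ_mul, pd_germ, pd_germ, pd_germ, germ_mul, germ_mul, germ_add, germ_eq_iff]
  filter_upwards [hf.eventually_analyticAt, hg.eventually_analyticAt] with x hx hx'
  rw [fderiv_fun_mul hx.differentiableAt hx'.differentiableAt]
  simp only [add_apply, smul_apply, smul_eq_mul]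
  ring

lemma pd_zero (i : Fin n) : pd i (0 : HolGerm n) = 0 := by
  have := pd_add i (0 : HolGerm n) 0
  rw [add_zero] at this
  exact left_eq_add.mp this

/-- Chain rule. -/
lemma pd_compHom (i : Fin n) (θ : (Fin n → ℂ) → (Fin n → ℂ)) (hθ : AnalyticAt ℂ θ 0)
    (hθ0 : θ 0 = 0) (g : HolGerm n) :
    ∃ c : Fin n → HolGerm n,
      pd i (compHom θ hθ hθ0 g) = ∑ j, compHom θ hθ hθ0 (pd j g) * c j := by
  obtain ⟨f, hf, rfl⟩ := exists_germ g
  have hc : ∀ j, AnalyticAt ℂ (fun x => fderiv ℂ θ x (Pi.single i 1) j) 0 := fun j =>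
    (((ContinuousLinearMap.proj j : (Fin n → ℂ) →L[ℂ] ℂ).comp
      (ContinuousLinearMap.apply ℂ (Fin n → ℂ) (Pi.single i 1 : Fin n → ℂ))).analyticAt _).comp
      hθ.fderiv
  refine ⟨fun j => germ _ (hc j), ?_⟩
  simp only [compHom_germ, pd_germ, germ_mul, germ_sum]
  rw [germ_eq_iff]
  have h1 : ∀ᶠ x in 𝓝 (0 : Fin n → ℂ), AnalyticAt ℂ f (θ x) :=
    (tendsto_of_analyticAt hθ hθ0).eventually hf.eventually_analyticAt
  filter_upwards [hθ.eventually_analyticAt, h1] with x hx hx'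
  have h2 : fderiv ℂ (fun x => f (θ x)) x = (fderiv ℂ f (θ x)).comp (fderiv ℂ θ x) :=
    fderiv_comp x hx'.differentiableAt hx.differentiableAt
  rw [h2, ContinuousLinearMap.comp_apply]
  have h8 : fderiv ℂ θ x (Pi.single i 1) =
      ∑ j, fderiv ℂ θ x (Pi.single i 1) j • (Pi.single j 1 : Fin n → ℂ) := by
    funext j
    simp [Finset.sum_apply, Pi.single_apply]
  conv_lhs => rw [h8]
  rw [map_sum]
  refine Finset.sum_congr rfl fun j _ => ?_
  rw [map_smul, smul_eq_mul, mul_comm]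

lemma jacobianIdeal_eq {f : (Fin n → ℂ) → ℂ} (hf : AnalyticAt ℂ f 0) :
    jacobianIdeal f = Ideal.span (Set.range fun i => pd i (germ f hf)) := by
  unfold jacobianIdeal
  congr 1
  ext g
  constructor
  · rintro ⟨i, hi⟩
    refine ⟨i, ?_⟩
    simp only
    rw [pd_germ]
    exact Subtype.ext hi.symm
  · rintro ⟨i, rfl⟩
    refine ⟨i, ?_⟩
    simp only
    rw [pd_germ]
    rfl

end

end Pool.Agent.GermDegree
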