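import Pool.Agent.GermDegree.Defs

/-!
# Local inverses and the Tougeron trick for polynomials
-/

set_option autoImplicit false

open Filter Topology MvPolynomial

namespace Pool.Agent.GermDegree

noncomputable section

/-- The analytic inverse function theorem. -/
lemma exists_local_inverse {E F : Type*} [NormedAddCommGroup E] [NormedSpace ℂ E] [CompleteSpace E]
    [NormedAddCommGroup F] [NormedSpace ℂ F] [CompleteSpace F] (f : E → F) (a : E)
    (hf : AnalyticAt ℂ f a) (L : E ≃L[ℂ] F) (hL : fderiv ℂ f a = L) :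
    ∃ g : F → E, AnalyticAt ℂ g (f a) ∧ g (f a) = a ∧ (∀ᶠ x in 𝓝 a, g (f x) = x) ∧
      (∀ᶠ y in 𝓝 (f a), f (g y) = y) := by
  have hs : HasStrictFDerivAt f (L : E →L[ℂ] F) a := by
    rw [← hL]
    exact hf.hasStrictFDerivAt
  refine ⟨(hs.toOpenPartialHomeomorph f).symm, ?_, ?_, ?_, ?_⟩
  · exact (hs.toOpenPartialHomeomorph f).analyticAt_symm' hs.mem_toOpenPartialHomeomorph_source
      hf hL
  · exact (hs.toOpenPartialHomeomorph f).left_inv hs.mem_toOpenPartialHomeomorph_source
  · exact (hs.toOpenPartialHomeomorph f).eventually_left_inverse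
      hs.mem_toOpenPartialHomeomorph_source
  · exact (hs.toOpenPartialHomeomorph f).eventually_right_inverse'
      hs.mem_toOpenPartialHomeomorph_source

variable {n : ℕ}

lemma localBiholomorphism_of_injective {φ : (Fin n → ℂ) → (Fin n → ℂ)} (hφ : AnalyticAt ℂ φ 0)
    (h0 : φ 0 = 0) (hinj : Function.Injective (fderiv ℂ φ 0)) : LocalBiholomorphism φ := by
  let L : (Fin n → ℂ) ≃L[ℂ] (Fin n → ℂ) :=
    (LinearEquiv.ofInjectiveEndo (fderiv ℂ φ 0 : (Fin n → ℂ) →ₗ[ℂ] (Fin n → ℂ))
      hinj).toContinuousLinearEquiv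
  have hL : fderiv ℂ φ 0 = L := by
    ext x j
    rfl
  obtain ⟨g, hg, hg0, h1, h2⟩ := exists_local_inverse φ 0 hφ L hL
  rw [h0] at hg hg0 h2
  exact ⟨hφ, h0, g, hg, hg0, h1, h2⟩

/-- Second-order Taylor formula with polynomial remainder. -/
lemma taylor2 (p : MvPolynomial (Fin n) ℂ) :
    ∃ P : Fin n → Fin n → MvPolynomial (Fin n ⊕ Fin n) ℂ, ∀ x h : Fin n → ℂ,
      eval (fun i => x i + h i) p = eval x p + ∑ i, eval x (pderiv i p) * h i +
        ∑ i, ∑ j, eval (Sum.elim x h) (P i j) * h i * h j := by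
  induction p using MvPolynomial.induction_on with
  | C a => exact ⟨fun _ _ => 0, fun x h => by simp⟩
  | add p q hp hq =>
    obtain ⟨P, hP⟩ := hp
    obtain ⟨Q, hQ⟩ := hq
    refine ⟨fun i j => P i j + Q i j, fun x h => ?_⟩
    simp only [map_add, hP, hQ, add_mul, Finset.sum_add_distrib]
    ring
  | mul_X p k hp =>
    obtain ⟨P, hP⟩ := hp
    refine ⟨fun i j => P i j * (X (Sum.inl k) + X (Sum.inr k)) +
      if j = k then rename Sum.inl (pderiv i p) else 0, fun x h => ?_⟩
    have h1 : ∀ i j, eval (Sum.elim x h) (P i j * (X (Sum.inl k) + X (Sum.inr k)) +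
        if j = k then rename Sum.inl (pderiv i p) else 0) * h i * h j =
        eval (Sum.elim x h) (P i j) * h i * h j * (x k + h k) +
          if j = k then eval x (pderiv i p) * h i * h j else 0 := by
      intro i j
      split_ifs with hjk
      · simp only [map_add, map_mul, eval_X, Sum.elim_inl, Sum.elim_inr, eval_rename]
        have : Sum.elim x h ∘ Sum.inl = x := rfl
        rw [this]
        ring
      · simp only [map_add, map_mul, eval_X, Sum.elim_inl, Sum.elim_inr, add_zero]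
        ring
    simp only [h1, Finset.sum_add_distrib, Finset.sum_ite_eq', Finset.mem_univ, if_true]
    have h2 : ∀ i, eval x (pderiv i (p * X k)) * h i =
        eval x (pderiv i p) * h i * x k + if i = k then eval x p * h i else 0 := by
      intro i
      rw [pderiv_mul, pderiv_X, map_add, map_mul, map_mul, eval_X]
      by_cases hik : i = k
      · subst hik
        simp
        ring
      · simp [hik, Ne.symm hik]
        ring
    simp only [h2, Finset.sum_add_distrib, Finset.sum_ite_eq', Finset.mem_univ, if_true]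
    rw [map_mul, eval_X, hP, map_mul, eval_X]
    simp only [← Finset.sum_mul]
    ring

/-- The derivative of a product of three functions, two of which vanish at the point, is `0`. -/
lemma hasFDerivAt_mul_mul_zero {E : Type*} [NormedAddCommGroup E] [NormedSpace ℂ E]
    {A b c : E → ℂ} {z : E} (hA : AnalyticAt ℂ A z) (hb : AnalyticAt ℂ b z)
    (hc : AnalyticAt ℂ c z) (hb0 : b z = 0) (hc0 : c z = 0) :
    HasFDerivAt (fun x => A x * b x * c x) (0 : E →L[ℂ] ℂ) z := by
  have h := (hA.differentiableAt.hasFDerivAt.mul hb.differentiableAt.hasFDerivAt).mul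
    hc.differentiableAt.hasFDerivAt
  have h0 : (A * b) z = 0 := by simp [hb0]
  rw [h0, hc0] at h
  refine HasFDerivAt.congr_fderiv (f := fun x => A x * b x * c x) h ?_
  ext v
  simp

lemma analyticAt_eval {E : Type*} [NormedAddCommGroup E] [NormedSpace ℂ E] {σ : Type*}
    {f : E → σ → ℂ} {z : E} (hf : ∀ i, AnalyticAt ℂ (fun x => f x i) z) (p : MvPolynomial σ ℂ) :
    AnalyticAt ℂ (fun x => eval (f x) p) z := by
  have := AnalyticAt.aeval_mvPolynomial hf p
  simpa [coe_aeval_eq_eval] using this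

lemma analyticAt_apply (i : Fin n) (z : Fin n → ℂ) : AnalyticAt ℂ (fun x : Fin n → ℂ => x i) z :=
  (ContinuousLinearMap.proj i : (Fin n → ℂ) →L[ℂ] ℂ).analyticAt z

/-- Square matrices, as plain functions. -/
abbrev Mat (n : ℕ) := Fin n → Fin n → ℂ

/-- **Tougeron's trick** for a polynomial `p` which is critical at `0`: adding an element of
`𝔪 J(p)²` to `p` does not change the right equivalence class. -/
theorem tougeron (p : MvPolynomial (Fin n) ℂ)
    (hp : ∀ k, eval (0 : Fin n → ℂ) (pderiv k p) = 0)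
    (a : Fin n → Fin n → (Fin n → ℂ) → ℂ) (ha : ∀ k l, AnalyticAt ℂ (a k l) 0)
    (ha0 : ∀ k l, a k l 0 = 0) :
    ∃ ψ : (Fin n → ℂ) → (Fin n → ℂ), LocalBiholomorphism ψ ∧ ∀ᶠ x in 𝓝 0,
      eval x p + ∑ k, ∑ l, a k l x * eval x (pderiv k p) * eval x (pderiv l p) =
        eval (ψ x) p := by
  obtain ⟨P, hP⟩ := taylor2 p
  let H : (Fin n → ℂ) × Mat n → Fin n → ℂ := fun w i => ∑ k, w.2 i k * eval w.1 (pderiv k p)
  let Q : (Fin n → ℂ) × Mat n → Mat n := fun w k l =>
    ∑ i, ∑ j, eval (Sum.elim w.1 (H w)) (P i j) * w.2 i k * w.2 j l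
  let Ψ : (Fin n → ℂ) × Mat n → (Fin n → ℂ) × Mat n := fun w => (w.1, w.2 + Q w)
  have hfst : ∀ i, ∀ w : (Fin n → ℂ) × Mat n, AnalyticAt ℂ (fun w : (Fin n → ℂ) × Mat n => w.1 i) w :=
    fun i w => ((ContinuousLinearMap.proj i : (Fin n → ℂ) →L[ℂ] ℂ).comp
      (ContinuousLinearMap.fst ℂ (Fin n → ℂ) (Mat n))).analyticAt w
  have hsnd : ∀ i k, ∀ w : (Fin n → ℂ) × Mat n,
      AnalyticAt ℂ (fun w : (Fin n → ℂ) × Mat n => w.2 i k) w :=
    fun i k w => ((ContinuousLinearMap.proj k : (Fin n → ℂ) →L[ℂ] ℂ).comp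
      ((ContinuousLinearMap.proj i : (Fin n → Fin n → ℂ) →L[ℂ] (Fin n → ℂ)).comp
      (ContinuousLinearMap.snd ℂ (Fin n → ℂ) (Mat n)))).analyticAt w
  have hH : ∀ i, ∀ w, AnalyticAt ℂ (fun w => H w i) w := fun i w =>
    Finset.analyticAt_fun_sum _ fun k _ => (hsnd i k w).mul (analyticAt_eval (fun i => hfst i w) _)
  have hPan : ∀ i j, ∀ w, AnalyticAt ℂ (fun w => eval (Sum.elim w.1 (H w)) (P i j)) w := by
    intro i j w
    refine analyticAt_eval (fun s => ?_) _
    rcases s with s | s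
    · exact hfst s w
    · exact hH s w
  have hQ : ∀ k l, ∀ w, AnalyticAt ℂ (fun w => Q w k l) w := fun k l w =>
    Finset.analyticAt_fun_sum _ fun i _ => Finset.analyticAt_fun_sum _ fun j _ =>
      ((hPan i j w).mul (hsnd i k w)).mul (hsnd j l w)
  have hQan : ∀ w, AnalyticAt ℂ Q w := fun w =>
    AnalyticAt.pi fun k => AnalyticAt.pi fun l => hQ k l w
  have hΨ : ∀ w, AnalyticAt ℂ Ψ w := fun w =>
    analyticAt_fst.prod (analyticAt_snd.add (hQan w))
  have hQ0 : Q 0 = 0 := by
    funext k l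
    simp [Q]
  have hΨ0 : Ψ 0 = 0 := by
    simp only [Ψ, hQ0]
    simp
  have hQd : HasFDerivAt Q (0 : (Fin n → ℂ) × Mat n →L[ℂ] Mat n) 0 := by
    rw [hasFDerivAt_pi']
    intro k
    rw [hasFDerivAt_pi']
    intro l
    have h1 : HasFDerivAt (fun w => Q w k l)
        (∑ i : Fin n, ∑ j : Fin n, (0 : (Fin n → ℂ) × Mat n →L[ℂ] ℂ)) 0 :=
      HasFDerivAt.fun_sum fun i _ => HasFDerivAt.fun_sum fun j _ =>
        hasFDerivAt_mul_mul_zero (hPan i j 0) (hsnd i k 0) (hsnd j l 0) rfl rfl
    refine h1.congr_fderiv ?_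
    ext v <;> simp
  have hΨd : HasFDerivAt Ψ (ContinuousLinearMap.id ℂ ((Fin n → ℂ) × Mat n)) 0 := by
    have h1 : HasFDerivAt Ψ ((ContinuousLinearMap.fst ℂ (Fin n → ℂ) (Mat n)).prod
        (ContinuousLinearMap.snd ℂ (Fin n → ℂ) (Mat n) + 0)) 0 :=
      hasFDerivAt_fst.prodMk (hasFDerivAt_snd.add hQd)
    refine h1.congr_fderiv ?_
    ext <;> simp
  obtain ⟨G, hG, hG0, -, hG1⟩ := exists_local_inverse Ψ 0 (hΨ 0)
    (ContinuousLinearEquiv.refl ℂ _) (by rw [hΨd.fderiv]; rfl)
  rw [hΨ0] at hG hG0 hG1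
  let α : (Fin n → ℂ) → (Fin n → ℂ) × Mat n := fun x => (x, fun k l => a k l x)
  have hα : AnalyticAt ℂ α 0 :=
    analyticAt_id.prod (AnalyticAt.pi fun k => AnalyticAt.pi fun l => ha k l)
  have hα0 : α 0 = 0 := by
    simp only [α, ha0]
    rfl
  have hGα : AnalyticAt ℂ (fun x => G (α x)) 0 := hG.comp_of_eq hα hα0
  have hGα0 : G (α 0) = 0 := by rw [hα0, hG0]
  let h : (Fin n → ℂ) → Fin n → ℂ := fun x i => ∑ k, (G (α x)).2 i k * eval x (pderiv k p)
  have hz : ∀ i k, AnalyticAt ℂ (fun x => (G (α x)).2 i k) 0 := fun i k =>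
    (hsnd i k _).comp hGα
  have hz0 : ∀ i k, (G (α 0)).2 i k = 0 := fun i k => by rw [hGα0]; rfl
  have hpan : ∀ k, AnalyticAt ℂ (fun x : Fin n → ℂ => eval x (pderiv k p)) 0 := fun k =>
    analyticAt_eval (fun i => analyticAt_apply i 0) _
  have hh : AnalyticAt ℂ h 0 := AnalyticAt.pi fun i =>
    Finset.analyticAt_fun_sum _ fun k _ => (hz i k).mul (hpan k)
  have hh0 : h 0 = 0 := by
    funext i
    simp [h, hz0]
  have hhd : HasFDerivAt h (0 : (Fin n → ℂ) →L[ℂ] (Fin n → ℂ)) 0 := by
    rw [hasFDerivAt_pi']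
    intro i
    have h1 : HasFDerivAt (fun x => h x i)
        (∑ k : Fin n, (0 : (Fin n → ℂ) →L[ℂ] ℂ)) 0 := by
      refine HasFDerivAt.fun_sum fun k _ => ?_
      have := hasFDerivAt_mul_mul_zero (A := fun _ => 1) analyticAt_const (hz i k) (hpan k)
        (hz0 i k) (hp k)
      simpa using this
    refine h1.congr_fderiv ?_
    ext v
    simp
  refine ⟨fun x i => x i + h x i, ?_, ?_⟩
  · have h1 : AnalyticAt ℂ (fun (x : Fin n → ℂ) i => x i + h x i) 0 := analyticAt_id.add hh
    refine localBiholomorphism_of_injective h1 ?_ ?_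
    · funext i
      simp [hh0]
    · have h2 : HasFDerivAt (fun (x : Fin n → ℂ) i => x i + h x i)
          (ContinuousLinearMap.id ℂ (Fin n → ℂ) + 0) 0 := (hasFDerivAt_id _).add hhd
      rw [h2.fderiv, add_zero]
      exact Function.injective_id
  · have htend : Tendsto α (𝓝 0) (𝓝 0) := by
      have := hα.continuousAt.tendsto
      rwa [hα0] at this
    filter_upwards [htend.eventually hG1] with x hx
    have hx1 : (G (α x)).1 = x := congrArg Prod.fst hx
    have hx2 : ∀ k l, (G (α x)).2 k l + Q (G (α x)) k l = a k l x := fun k l =>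
      congrFun (congrFun (congrArg Prod.snd hx) k) l
    have hHh : H (G (α x)) = h x := by
      funext i
      simp only [H, h, hx1]
    rw [hP]
    have hlin : ∑ i, eval x (pderiv i p) * h x i =
        ∑ k, ∑ l, (G (α x)).2 k l * eval x (pderiv k p) * eval x (pderiv l p) := by
      refine Finset.sum_congr rfl fun k _ => ?_
      simp only [h, Finset.mul_sum]
      refine Finset.sum_congr rfl fun l _ => ?_
      ring
    have hquad : ∑ i, ∑ j, eval (Sum.elim x (h x)) (P i j) * h x i * h x j =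
        ∑ k, ∑ l, Q (G (α x)) k l * eval x (pderiv k p) * eval x (pderiv l p) := by
      simp only [Q, hHh, hx1]
      simp only [Finset.sum_mul]
      have e1 : ∀ i j, eval (Sum.elim x (h x)) (P i j) * h x i * h x j =
          ∑ k, ∑ l, eval (Sum.elim x (h x)) (P i j) * (G (α x)).2 i k * (G (α x)).2 j l *
            eval x (pderiv k p) * eval x (pderiv l p) := by
        intro i j
        simp only [h]
        rw [mul_assoc, Finset.sum_mul_sum, Finset.mul_sum]
        refine Finset.sum_congr rfl fun k _ => ?_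
        rw [Finset.mul_sum]
        refine Finset.sum_congr rfl fun l _ => ?_
        ring
      simp only [e1]
      calc _ = ∑ i, ∑ k, ∑ j, ∑ l, eval (Sum.elim x (h x)) (P i j) * (G (α x)).2 i k *
            (G (α x)).2 j l * eval x (pderiv k p) * eval x (pderiv l p) :=
            Finset.sum_congr rfl fun i _ => Finset.sum_comm
        _ = ∑ k, ∑ i, ∑ j, ∑ l, eval (Sum.elim x (h x)) (P i j) * (G (α x)).2 i k *
            (G (α x)).2 j l * eval x (pderiv k p) * eval x (pderiv l p) := Finset.sum_comm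
        _ = ∑ k, ∑ i, ∑ l, ∑ j, eval (Sum.elim x (h x)) (P i j) * (G (α x)).2 i k *
            (G (α x)).2 j l * eval x (pderiv k p) * eval x (pderiv l p) :=
            Finset.sum_congr rfl fun k _ => Finset.sum_congr rfl fun i _ => Finset.sum_comm
        _ = ∑ k, ∑ l, ∑ i, ∑ j, eval (Sum.elim x (h x)) (P i j) * (G (α x)).2 i k *
            (G (α x)).2 j l * eval x (pderiv k p) * eval x (pderiv l p) :=
            Finset.sum_congr rfl fun k _ => Finset.sum_comm
    rw [hlin, hquad, add_assoc, ← Finset.sum_add_distrib]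
    congr 1
    refine Finset.sum_congr rfl fun k _ => ?_
    rw [← Finset.sum_add_distrib]
    refine Finset.sum_congr rfl fun l _ => ?_
    rw [← hx2]
    ring

end

end Pool.Agent.GermDegree
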