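import Pool.Agent.GermDegree.Count
import Pool.Agent.GermDegree.Germs
import Pool.Agent.GermDegree.Tougeron

/-!
# Assembling the proof
-/

set_option autoImplicit false

open Filter Topology MvPolynomial IsLocalRing

namespace Pool.Agent.GermDegree

noncomputable section

/-! ### Dimensions -/

lemma dim_mul_span {A : Type*} [CommRing A] [Algebra ℂ A] {ι : Type*} [Fintype ι] (g : ι → A)
    (I K : Ideal A) (hK : K = Ideal.span (Set.range g)) (h1 : Module.Finite ℂ (A ⧸ I))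
    (h2 : Module.Finite ℂ (A ⧸ K)) :
    Module.Finite ℂ (A ⧸ (I * K)) ∧ Module.finrank ℂ (A ⧸ (I * K)) ≤
      Module.finrank ℂ (A ⧸ K) + Fintype.card ι * Module.finrank ℂ (A ⧸ I) := by
  let bI := Module.finBasis ℂ (A ⧸ I)
  let bK := Module.finBasis ℂ (A ⧸ K)
  choose cI hcI using fun l => Ideal.Quotient.mk_surjective (bI l)
  choose cK hcK using fun l => Ideal.Quotient.mk_surjective (bK l)
  let v : Fin (Module.finrank ℂ (A ⧸ K)) ⊕ (ι × Fin (Module.finrank ℂ (A ⧸ I))) →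
      A ⧸ (I * K) :=
    Sum.elim (fun m => Ideal.Quotient.mk _ (cK m)) (fun p => Ideal.Quotient.mk _ (cI p.2 * g p.1))
  have hmem : ∀ y ∈ K, ∃ h : ι → A, ∑ i, h i * g i = y := by
    intro y hy
    rw [hK, Ideal.mem_span_range_iff_exists_fun] at hy
    exact hy
  have hgK : ∀ i, g i ∈ K := fun i => by
    rw [hK]
    exact Ideal.subset_span ⟨i, rfl⟩
  have hspan : Submodule.span ℂ (Set.range v) = ⊤ := by
    rw [eq_top_iff]
    intro y _
    obtain ⟨x, rfl⟩ := Ideal.Quotient.mk_surjective y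
    have e1 := bK.sum_repr (Ideal.Quotient.mk K x)
    set γ := bK.repr (Ideal.Quotient.mk K x)
    have e2 : x - ∑ m, γ m • cK m ∈ K := by
      rw [← Ideal.Quotient.eq, map_sum, ← e1]
      refine Finset.sum_congr rfl fun m _ => ?_
      rw [← hcK]
      rfl
    obtain ⟨h, hh⟩ := hmem _ e2
    have e3 : ∀ i, ∑ l, bI.repr (Ideal.Quotient.mk I (h i)) l • bI l = Ideal.Quotient.mk I (h i) :=
      fun i => bI.sum_repr _
    have e4 : ∀ i, h i - ∑ l, bI.repr (Ideal.Quotient.mk I (h i)) l • cI l ∈ I := by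
      intro i
      rw [← Ideal.Quotient.eq, map_sum, ← e3]
      refine Finset.sum_congr rfl fun l _ => ?_
      rw [e3, ← hcI]
      rfl
    have e5 : ∀ i, Ideal.Quotient.mk (I * K) (h i * g i) =
        ∑ l, bI.repr (Ideal.Quotient.mk I (h i)) l • v (Sum.inr (i, l)) := by
      intro i
      have e6 : h i * g i - (∑ l, bI.repr (Ideal.Quotient.mk I (h i)) l • cI l) * g i ∈ I * K := by
        rw [← sub_mul]
        exact Ideal.mul_mem_mul (e4 i) (hgK i)
      rw [Ideal.Quotient.eq.mpr e6, Finset.sum_mul, map_sum]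
      refine Finset.sum_congr rfl fun l _ => ?_
      rw [smul_mul_assoc]
      rfl
    have e7 : Ideal.Quotient.mk (I * K) x =
        ∑ m, γ m • v (Sum.inl m) + ∑ i, Ideal.Quotient.mk (I * K) (h i * g i) := by
      have : x = ∑ m, γ m • cK m + ∑ i, h i * g i := by
        rw [hh]
        ring
      conv_lhs => rw [this]
      rw [map_add, map_sum, map_sum]
      rfl
    rw [e7]
    refine Submodule.add_mem _ (Submodule.sum_mem _ fun m _ => Submodule.smul_mem _ _
      (Submodule.subset_span ⟨_, rfl⟩)) (Submodule.sum_mem _ fun i _ => ?_)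
    rw [e5]
    exact Submodule.sum_mem _ fun l _ => Submodule.smul_mem _ _ (Submodule.subset_span ⟨_, rfl⟩)
  have hfin : Module.Finite ℂ (A ⧸ (I * K)) := by
    classical
    exact ⟨⟨Finset.univ.image v, by
      rw [Finset.coe_image, Finset.coe_univ, Set.image_univ, hspan]⟩⟩
  refine ⟨hfin, ?_⟩
  have := finrank_le_of_span_eq_top (v := v) hspan
  simpa using this

variable {n : ℕ}

lemma finite_quot_maximalIdeal : Module.Finite ℂ (HolGerm n ⧸ maximalIdeal (HolGerm n)) ∧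
    Module.finrank ℂ (HolGerm n ⧸ maximalIdeal (HolGerm n)) ≤ 1 := by
  have h : ∀ w : HolGerm n ⧸ maximalIdeal (HolGerm n), ∃ c : ℂ, c • (1 : HolGerm n ⧸ _) = w := by
    intro w
    obtain ⟨g, rfl⟩ := Ideal.Quotient.mk_surjective w
    refine ⟨val g, ?_⟩
    rw [Algebra.smul_def, mul_one]
    change Ideal.Quotient.mk _ (algebraMap ℂ (HolGerm n) (val g)) = _
    rw [Ideal.Quotient.eq, mem_maximalIdeal, map_sub, val_algebraMap, sub_self]
  refine ⟨⟨⟨{1}, ?_⟩⟩, finrank_le_one 1 h⟩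
  rw [eq_top_iff]
  intro w _
  obtain ⟨c, rfl⟩ := h w
  exact Submodule.smul_mem _ _ (Submodule.subset_span (by simp))

/-- The products of pairs of generators. -/
def pairProd {A : Type*} [CommRing A] (g : Fin n → A) : Sym2 (Fin n) → A :=
  Sym2.lift ⟨fun k l => g k * g l, fun _ _ => mul_comm _ _⟩

lemma span_mul_self {A : Type*} [CommRing A] (g : Fin n → A) :
    Ideal.span (Set.range g) * Ideal.span (Set.range g) = Ideal.span (Set.range (pairProd g)) := by
  rw [Ideal.span_mul_span']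
  congr 1
  ext x
  constructor
  · rintro ⟨_, ⟨k, rfl⟩, _, ⟨l, rfl⟩, rfl⟩
    exact ⟨s(k, l), rfl⟩
  · rintro ⟨z, rfl⟩
    induction z using Sym2.ind with
    | _ k l => exact ⟨_, ⟨k, rfl⟩, _, ⟨l, rfl⟩, rfl⟩

/-- The ideal `⟨∂F/∂x₁, …, ∂F/∂xₙ⟩`. -/
def Jac (F : HolGerm n) : Ideal (HolGerm n) := Ideal.span (Set.range fun i => pd i F)

lemma dim_bound (F : HolGerm n) (h : Module.Finite ℂ (HolGerm n ⧸ Jac F)) :
    Module.Finite ℂ (HolGerm n ⧸ (maximalIdeal (HolGerm n) * (Jac F * Jac F))) ∧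
    Module.finrank ℂ (HolGerm n ⧸ (maximalIdeal (HolGerm n) * (Jac F * Jac F))) ≤
      (n + 1) * Module.finrank ℂ (HolGerm n ⧸ Jac F) + (n + 1).choose 2 := by
  obtain ⟨h1, h2⟩ := dim_mul_span (fun i => pd i F) (Jac F) (Jac F) rfl h h
  obtain ⟨h3, h4⟩ := dim_mul_span (pairProd fun i => pd i F) (maximalIdeal (HolGerm n))
    (Jac F * Jac F) (span_mul_self _) finite_quot_maximalIdeal.1 h1
  refine ⟨h3, h4.trans ?_⟩
  rw [Fintype.card_fin] at h2
  rw [Sym2.card, Fintype.card_fin]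
  have h5 := finite_quot_maximalIdeal (n := n).2
  calc _ ≤ (Module.finrank ℂ (HolGerm n ⧸ Jac F) + n * Module.finrank ℂ (HolGerm n ⧸ Jac F)) +
        (n + 1).choose 2 * 1 := Nat.add_le_add h2 (Nat.mul_le_mul_left _ h5)
    _ = _ := by ring

/-! ### Polynomials in the coordinates -/

/-- Every germ is a polynomial in the coordinates modulo `𝔪ᵏ`. -/
lemma exists_poly_approx (k : ℕ) (g : HolGerm n) :
    ∃ p : MvPolynomial (Fin n) ℂ, g - aeval coord p ∈ maximalIdeal (HolGerm n) ^ k := by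
  induction k generalizing g with
  | zero => exact ⟨0, by simp⟩
  | succ k ih =>
    have h1 : g - algebraMap ℂ _ (val g) ∈ maximalIdeal (HolGerm n) := by
      rw [mem_maximalIdeal, map_sub, val_algebraMap, sub_self]
    rw [maximalIdeal_eq, Ideal.mem_span_range_iff_exists_fun] at h1
    obtain ⟨h, hh⟩ := h1
    choose q hq using fun i => ih (h i)
    refine ⟨C (val g) + ∑ i, q i * X i, ?_⟩
    have h2 : g - aeval coord (C (val g) + ∑ i, q i * X i) =
        ∑ i, (h i - aeval coord (q i)) * coord i := by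
      simp only [sub_mul, Finset.sum_sub_distrib, hh, map_add, map_sum, map_mul, aeval_X, aeval_C]
      ring
    rw [h2, pow_succ]
    exact Ideal.sum_mem _ fun i _ => Ideal.mul_mem_mul (hq i) (coord_mem i)

lemma aeval_germ (φ : Fin n → (Fin n → ℂ) → ℂ) (hφ : ∀ i, AnalyticAt ℂ (φ i) 0)
    (p : MvPolynomial (Fin n) ℂ) :
    aeval (fun i => germ (φ i) (hφ i)) p =
      germ (fun x => eval (fun i => φ i x) p) (analyticAt_eval hφ p) := by
  induction p using MvPolynomial.induction_on with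
  | C a =>
    rw [aeval_C, algebraMap_eq, germ_eq_iff]
    exact Eventually.of_forall fun x => by rw [eval_C]
  | add p q hp hq =>
    rw [map_add, hp, hq, germ_add, germ_eq_iff]
    exact Eventually.of_forall fun x => by rw [map_add]
  | mul_X p k hp =>
    rw [map_mul, hp, aeval_X, germ_mul, germ_eq_iff]
    exact Eventually.of_forall fun x => by rw [map_mul, eval_X]

/-- The maximal ideal becomes nilpotent in a finite-dimensional quotient, so that the quotient is
generated by the coordinates. -/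
lemma surjective_aeval_mk (I : Ideal (HolGerm n)) (hI : Module.Finite ℂ (HolGerm n ⧸ I)) :
    Function.Surjective (aeval (fun i => Ideal.Quotient.mk I (coord i)) :
      MvPolynomial (Fin n) ℂ →ₐ[ℂ] HolGerm n ⧸ I) := by
  have hart : IsArtinianRing (HolGerm n ⧸ I) := isArtinian_of_tower ℂ inferInstance
  have hle : (maximalIdeal (HolGerm n)).map (Ideal.Quotient.mk I) ≤ Ideal.jacobson ⊥ := by
    rw [Ideal.map_le_iff_le_comap]
    intro g hg
    rw [Ideal.mem_comap, Ideal.mem_jacobson_bot]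
    intro y
    obtain ⟨z, rfl⟩ := Ideal.Quotient.mk_surjective y
    rw [← map_mul, ← map_one (Ideal.Quotient.mk I), ← map_add]
    refine IsUnit.map _ ?_
    rw [isUnit_iff, map_add, map_mul, (mem_maximalIdeal g).mp hg, zero_mul, zero_add, map_one]
    exact one_ne_zero
  obtain ⟨k, hk⟩ := IsArtinianRing.isNilpotent_jacobson_bot (R := HolGerm n ⧸ I)
  have hk' : ((maximalIdeal (HolGerm n)).map (Ideal.Quotient.mk I)) ^ k = ⊥ := by
    rw [eq_bot_iff, ← Ideal.zero_eq_bot, ← hk]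
    exact Ideal.pow_right_mono hle k
  intro y
  obtain ⟨g, rfl⟩ := Ideal.Quotient.mk_surjective y
  obtain ⟨p, hp⟩ := exists_poly_approx k g
  refine ⟨p, ?_⟩
  have h1 : Ideal.Quotient.mk I (g - aeval coord p) ∈
      ((maximalIdeal (HolGerm n)).map (Ideal.Quotient.mk I)) ^ k := by
    rw [← Ideal.map_pow]
    exact Ideal.mem_map_of_mem _ hp
  rw [hk', Ideal.mem_bot, map_sub, sub_eq_zero] at h1
  rw [h1]
  have h2 : (Ideal.Quotient.mkₐ ℂ I) (aeval coord p) =
      aeval (fun i => Ideal.Quotient.mkₐ ℂ I (coord i)) p := by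
    rw [← MvPolynomial.comp_aeval_apply]
  exact h2.symm

/-! ### Derivatives and ideals -/

lemma pd_mem_of_mul (i : Fin n) (I K L : Ideal (HolGerm n)) (hI : ∀ a ∈ I, ∀ b ∈ K,
    pd i a * b ∈ L) (hK : ∀ a ∈ I, ∀ b ∈ K, a * pd i b ∈ L) (g : HolGerm n) (hg : g ∈ I * K) :
    pd i g ∈ L := by
  refine Submodule.mul_induction_on hg (fun a ha b hb => ?_) (fun a b ha hb => ?_)
  · rw [pd_mul]
    exact L.add_mem (hI a ha b hb) (hK a ha b hb)
  · rw [pd_add]
    exact L.add_mem ha hb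

lemma pd_mem_maximalIdeal (i : Fin n) (g : HolGerm n)
    (hg : g ∈ maximalIdeal (HolGerm n) * maximalIdeal (HolGerm n)) :
    pd i g ∈ maximalIdeal (HolGerm n) :=
  pd_mem_of_mul i _ _ _ (fun _ _ _ hb => Ideal.mul_mem_left _ _ hb)
    (fun _ ha _ _ => Ideal.mul_mem_right _ _ ha) g hg

lemma pd_mem_mul (i : Fin n) (J : Ideal (HolGerm n)) (hJ : J ≤ maximalIdeal (HolGerm n))
    (g : HolGerm n) (hg : g ∈ maximalIdeal (HolGerm n) * (J * J)) :
    pd i g ∈ maximalIdeal (HolGerm n) * J := by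
  refine pd_mem_of_mul i _ _ _ (fun a _ b hb => ?_) (fun a ha b hb => ?_) g hg
  · exact Ideal.mul_mem_left _ _ (Ideal.mul_mono_left hJ hb)
  · refine Ideal.mul_mem_mul ha ?_
    exact pd_mem_of_mul i J J J (fun _ _ _ hd => Ideal.mul_mem_left _ _ hd)
      (fun _ hc _ _ => Ideal.mul_mem_right _ _ hc) b hb

/-- The Jacobian ideal of `F ∘ θ` contains the pullback of the Jacobian ideal of `F`. -/
lemma map_Jac_le (θ φ : (Fin n → ℂ) → (Fin n → ℂ)) (hθ : AnalyticAt ℂ θ 0) (hθ0 : θ 0 = 0)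
    (hφ : AnalyticAt ℂ φ 0) (hφ0 : φ 0 = 0) (h1 : ∀ᶠ x in 𝓝 0, θ (φ x) = x)
    (h2 : ∀ᶠ x in 𝓝 0, φ (θ x) = x) (F : HolGerm n) :
    (Jac F).map (compHom θ hθ hθ0) ≤ Jac (compHom θ hθ hθ0 F) := by
  unfold Jac
  rw [Ideal.map_span, Ideal.span_le]
  rintro _ ⟨_, ⟨i, rfl⟩, rfl⟩
  obtain ⟨c, hc⟩ := pd_compHom i φ hφ hφ0 (compHom θ hθ hθ0 F)
  rw [compHom_compHom φ θ hφ hφ0 hθ hθ0 h1] at hc
  simp only
  rw [hc, map_sum]
  refine Ideal.sum_mem _ fun j _ => ?_
  rw [map_mul, compHom_compHom θ φ hθ hθ0 hφ hφ0 h2]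
  exact Ideal.mul_mem_right _ _ (Ideal.subset_span ⟨j, rfl⟩)

lemma Jac_compHom_le (θ : (Fin n → ℂ) → (Fin n → ℂ)) (hθ : AnalyticAt ℂ θ 0) (hθ0 : θ 0 = 0)
    (F : HolGerm n) (hF : Jac F ≤ maximalIdeal (HolGerm n)) :
    Jac (compHom θ hθ hθ0 F) ≤ maximalIdeal (HolGerm n) := by
  unfold Jac
  rw [Ideal.span_le]
  rintro _ ⟨i, rfl⟩
  obtain ⟨c, hc⟩ := pd_compHom i θ hθ hθ0 F
  simp only
  rw [hc]
  refine Ideal.sum_mem _ fun j _ => Ideal.mul_mem_right _ _ ?_
  rw [mem_maximalIdeal, val_compHom, ← mem_maximalIdeal]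
  exact hF (Ideal.subset_span ⟨j, rfl⟩)

lemma pd_eq_add (i : Fin n) (F P : HolGerm n) : pd i F = pd i P + pd i (F - P) := by
  rw [← pd_add]
  congr 1
  ring

/-- Nakayama: if `F = P + G` with `G ∈ 𝔪 J(F)²` then `J(F) ≤ J(P)`. -/
lemma Jac_le_of_sub_mem (F P : HolGerm n) (hF : Jac F ≤ maximalIdeal (HolGerm n))
    (h : F - P ∈ maximalIdeal (HolGerm n) * (Jac F * Jac F)) : Jac F ≤ Jac P := by
  have h3 : Jac F ≤ Jac P ⊔ maximalIdeal (HolGerm n) • Jac F := by
    have h4 : ∀ i, pd i F ∈ Jac P ⊔ maximalIdeal (HolGerm n) • Jac F := by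
      intro i
      rw [pd_eq_add i F P]
      exact Submodule.add_mem_sup (Ideal.subset_span ⟨i, rfl⟩) (pd_mem_mul i _ hF _ h)
    refine Ideal.span_le.mpr ?_
    rintro _ ⟨i, rfl⟩
    exact h4 i
  refine Submodule.le_of_le_smul_of_le_jacobson_bot (I := maximalIdeal (HolGerm n)) ?_ ?_ h3
  · exact Submodule.fg_span (Set.finite_range _)
  · rw [IsLocalRing.jacobson_eq_maximalIdeal ⊥ bot_ne_top]

lemma Jac_le_of_sub_mem' (F P : HolGerm n) (hF : Jac F ≤ maximalIdeal (HolGerm n))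
    (h : F - P ∈ maximalIdeal (HolGerm n) * (Jac F * Jac F)) :
    Jac P ≤ maximalIdeal (HolGerm n) := by
  refine Ideal.span_le.mpr ?_
  rintro _ ⟨i, rfl⟩
  have h2 : pd i P = pd i F - pd i (F - P) := eq_sub_of_add_eq (pd_eq_add i F P).symm
  have h3 : pd i F ∈ maximalIdeal (HolGerm n) := hF (Ideal.subset_span ⟨i, rfl⟩)
  have h4 : pd i (F - P) ∈ maximalIdeal (HolGerm n) :=
    Ideal.mul_le_left (pd_mem_mul i _ hF _ h)
  have h5 : pd i P ∈ maximalIdeal (HolGerm n) := by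
    rw [h2]
    exact Ideal.sub_mem _ h3 h4
  exact h5

/-! ### Local biholomorphisms -/

lemma LocalBiholomorphism.comp {φ ψ : (Fin n → ℂ) → (Fin n → ℂ)} (hφ : LocalBiholomorphism φ)
    (hψ : LocalBiholomorphism ψ) : LocalBiholomorphism (fun x => φ (ψ x)) := by
  obtain ⟨h1, h2, φ', h3, h4, h5, h6⟩ := hφ
  obtain ⟨k1, k2, ψ', k3, k4, k5, k6⟩ := hψ
  refine ⟨h1.comp_of_eq k1 k2, by rw [k2, h2], fun x => ψ' (φ' x), k3.comp_of_eq h3 h4,
    by simp only [h4, k4], ?_, ?_⟩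
  · filter_upwards [k5, (tendsto_of_analyticAt k1 k2).eventually h5] with x hx hx'
    rw [hx', hx]
  · filter_upwards [h6, (tendsto_of_analyticAt h3 h4).eventually k6] with x hx hx'
    rw [hx', hx]

lemma LocalBiholomorphism.exists_inv {φ : (Fin n → ℂ) → (Fin n → ℂ)}
    (hφ : LocalBiholomorphism φ) : ∃ ψ, LocalBiholomorphism ψ ∧ (∀ᶠ x in 𝓝 0, ψ (φ x) = x) ∧
      (∀ᶠ x in 𝓝 0, φ (ψ x) = x) := by
  obtain ⟨h1, h2, φ', h3, h4, h5, h6⟩ := hφ
  exact ⟨φ', ⟨h3, h4, φ, h1, h2, h6, h5⟩, h5, h6⟩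

/-- If the coordinates are, modulo `𝔪²`, polynomials in the components of `φ`, then the
derivative of `φ` at `0` is injective. -/
lemma injective_fderiv (φ : Fin n → (Fin n → ℂ) → ℂ) (hφ : ∀ i, AnalyticAt ℂ (φ i) 0)
    (P : Fin n → MvPolynomial (Fin n) ℂ)
    (hP : ∀ k, coord k - aeval (fun i => germ (φ i) (hφ i)) (P k) ∈
      maximalIdeal (HolGerm n) * maximalIdeal (HolGerm n)) :
    Function.Injective (fderiv ℂ (fun (x : Fin n → ℂ) i => φ i x) 0) := by
  have hφan : AnalyticAt ℂ (fun (x : Fin n → ℂ) i => φ i x) 0 := AnalyticAt.pi hφ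
  rw [injective_iff_map_eq_zero]
  intro v hv
  funext k
  set Φ : (Fin n → ℂ) → (Fin n → ℂ) := fun x i => φ i x with hΦ
  have hE : AnalyticAt ℂ (fun y : Fin n → ℂ => eval y (P k)) (Φ 0) :=
    analyticAt_eval (fun i => analyticAt_apply i _) _
  have hEΦ : AnalyticAt ℂ (fun x : Fin n → ℂ => eval (Φ x) (P k)) 0 := hE.comp hφan
  have h1 : coord k - aeval (fun i => germ (φ i) (hφ i)) (P k) =
      germ (fun x => x k - eval (Φ x) (P k)) ((analyticAt_coord k 0).sub hEΦ) := by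
    rw [aeval_germ, coord, germ_sub]
  have h2 := hP k
  rw [h1] at h2
  have h3 : fderiv ℂ (fun x : Fin n → ℂ => x k - eval (Φ x) (P k)) 0 = 0 := by
    have h4 : ∀ i, fderiv ℂ (fun x : Fin n → ℂ => x k - eval (Φ x) (P k)) 0 (Pi.single i 1) = 0 := by
      intro i
      have := pd_mem_maximalIdeal i _ h2
      rw [pd_germ, mem_maximalIdeal, val_germ] at this
      exact this
    ext w
    have h8 : w = ∑ i, w i • (Pi.single i 1 : Fin n → ℂ) := by
      funext j
      simp [Finset.sum_apply, Pi.single_apply]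
    rw [h8, map_sum]
    simp only [map_smul, h4, smul_zero, Finset.sum_const_zero, map_sum, zero_apply]
  have h5 : fderiv ℂ (fun x : Fin n → ℂ => x k - eval (Φ x) (P k)) 0 =
      fderiv ℂ (fun x : Fin n → ℂ => x k) 0 - fderiv ℂ (fun x : Fin n → ℂ => eval (Φ x) (P k)) 0 :=
    fderiv_fun_sub (analyticAt_coord k 0).differentiableAt hEΦ.differentiableAt
  have h6 : fderiv ℂ (fun x : Fin n → ℂ => eval (Φ x) (P k)) 0 =
      (fderiv ℂ (fun y : Fin n → ℂ => eval y (P k)) (Φ 0)).comp (fderiv ℂ Φ 0) :=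
    fderiv_comp 0 hE.differentiableAt hφan.differentiableAt
  have h7 : fderiv ℂ (fun x : Fin n → ℂ => x k) 0 v = v k := by
    have : fderiv ℂ (fun x : Fin n → ℂ => x k) 0 =
        (ContinuousLinearMap.proj k : (Fin n → ℂ) →L[ℂ] ℂ) :=
      (ContinuousLinearMap.proj k : (Fin n → ℂ) →L[ℂ] ℂ).fderiv
    rw [this]
    rfl
  have h9 := congrArg (fun L : (Fin n → ℂ) →L[ℂ] ℂ => L v) h5
  rw [h3, sub_apply, h6, ContinuousLinearMap.comp_apply, hv, map_zero, h7,
    sub_zero] at h9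
  rw [← h9]
  rfl

lemma hasFDerivAt_eval (p : MvPolynomial (Fin n) ℂ) (x : Fin n → ℂ) :
    HasFDerivAt (fun y : Fin n → ℂ => eval y p)
      (∑ i, eval x (pderiv i p) • (ContinuousLinearMap.proj i : (Fin n → ℂ) →L[ℂ] ℂ)) x := by
  induction p using MvPolynomial.induction_on with
  | C a =>
    have h : (fun y : Fin n → ℂ => eval y (C a : MvPolynomial (Fin n) ℂ)) = fun _ => a := by
      funext y
      rw [eval_C]
    rw [h]
    refine (hasFDerivAt_const a x).congr_fderiv ?_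
    ext v
    simp
  | add p q hp hq =>
    have h : (fun y : Fin n → ℂ => eval y (p + q)) =
        (fun y : Fin n → ℂ => eval y p) + fun y : Fin n → ℂ => eval y q := by
      funext y
      rw [map_add]
      rfl
    rw [h]
    refine (hp.add hq).congr_fderiv ?_
    ext v
    simp [add_mul, Finset.sum_add_distrib]
  | mul_X p k hp =>
    have h1 := hp.mul (ContinuousLinearMap.proj k : (Fin n → ℂ) →L[ℂ] ℂ).hasFDerivAt
    have h : (fun y : Fin n → ℂ => eval y (p * X k)) = (fun y : Fin n → ℂ => eval y p) *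
        (ContinuousLinearMap.proj k : (Fin n → ℂ) →L[ℂ] ℂ) := by
      funext y
      rw [map_mul, eval_X]
      rfl
    rw [h]
    refine h1.congr_fderiv ?_
    have h2 : ∀ i, eval x (pderiv i (p * X k)) =
        eval x (pderiv i p) * x k + if i = k then eval x p else 0 := by
      intro i
      rw [pderiv_mul, pderiv_X, map_add, map_mul, map_mul, eval_X]
      by_cases hik : i = k
      · subst hik
        simp
      · simp [hik, Ne.symm hik]
    ext v
    simp only [h2]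
    simp [add_mul, Finset.sum_add_distrib, Finset.mul_sum, add_comm]
    refine Finset.sum_congr rfl fun i _ => ?_
    ring

lemma fderiv_eval_single (p : MvPolynomial (Fin n) ℂ) (k : Fin n) (x : Fin n → ℂ) :
    fderiv ℂ (fun y : Fin n → ℂ => eval y p) x (Pi.single k 1) = eval x (pderiv k p) := by
  rw [(hasFDerivAt_eval p x).fderiv]
  simp [Pi.single_apply]

/-- **Main theorem.** -/
theorem exists_polynomial (hn : 1 ≤ n) {f : (Fin n → ℂ) → ℂ} (hf : IsolatedCriticalPoint f) :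
    ∃ D : ℕ, D ^ n ≤ n.factorial * ((n + 1) * milnorNumber f + (n + 1).choose 2) ∧
      ∃ p : MvPolynomial (Fin n) ℂ, p.totalDegree ≤ 2 * D ∧
        RightEquivalent f (fun x => eval x p) := by
  obtain ⟨hfan, hf0, hfd, hfin⟩ := hf
  set F := germ f hfan with hF
  have hJ : jacobianIdeal f = Jac F := jacobianIdeal_eq hfan
  have hμ : milnorNumber f = Module.finrank ℂ (HolGerm n ⧸ Jac F) := by
    unfold milnorNumber
    rw [hJ]
  rw [hJ] at hfin
  have hJ𝔪 : Jac F ≤ maximalIdeal (HolGerm n) := by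
    refine Ideal.span_le.mpr ?_
    rintro _ ⟨i, rfl⟩
    simp only [hF, SetLike.mem_coe]
    rw [pd_germ, mem_maximalIdeal, val_germ, hfd]
    rfl
  obtain ⟨hI, hIdim⟩ := dim_bound F hfin
  set I := maximalIdeal (HolGerm n) * (Jac F * Jac F) with hIdef
  -- apply the algebraic theorem
  obtain ⟨D, hD, u, hu, huD⟩ := exists_spanning' hn
    ((maximalIdeal (HolGerm n)).map (Ideal.Quotient.mk I))
    (fun i => Ideal.Quotient.mk I (coord i))
    (fun i => Ideal.mem_map_of_mem _ (coord_mem i)) (surjective_aeval_mk I hI)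
  refine ⟨D, hD.trans (Nat.mul_le_mul_left _ (hμ ▸ hIdim)), ?_⟩
  -- lift `u` to germs
  have hlift : ∀ i, ∃ g ∈ maximalIdeal (HolGerm n), Ideal.Quotient.mk I g = u i := fun i =>
    (Ideal.mem_map_iff_of_surjective _ Ideal.Quotient.mk_surjective).mp (hu i)
  choose g hg𝔪 hgu using hlift
  choose φ hφ hφg using fun i => exists_germ (g i)
  have hg : g = fun i => germ (φ i) (hφ i) := funext fun i => (hφg i).symm
  have hφ0 : ∀ i, φ i 0 = 0 := fun i => by
    have := hg𝔪 i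
    rwa [← hφg, mem_maximalIdeal, val_germ] at this
  have haeval : ∀ p : MvPolynomial (Fin n) ℂ, Ideal.Quotient.mk I (aeval g p) = aeval u p := by
    intro p
    have h2 : (Ideal.Quotient.mkₐ ℂ I) (aeval g p) =
        aeval (fun i => Ideal.Quotient.mkₐ ℂ I (g i)) p := by
      rw [← MvPolynomial.comp_aeval_apply]
    have h3 : (fun i => Ideal.Quotient.mkₐ ℂ I (g i)) = u := funext hgu
    rw [h3] at h2
    exact h2
  have hspan : ∀ h : HolGerm n, ∃ p : MvPolynomial (Fin n) ℂ, p.totalDegree ≤ 2 * D ∧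
      h - aeval g p ∈ I := by
    intro h
    have h1 : Ideal.Quotient.mk I h ∈ W u (2 * D) := by rw [huD]; trivial
    obtain ⟨p, hp, hp'⟩ := mem_W.mp h1
    exact ⟨p, hp, by rw [← Ideal.Quotient.eq, haeval, hp']⟩
  have hI2 : I ≤ maximalIdeal (HolGerm n) * maximalIdeal (HolGerm n) :=
    Ideal.mul_mono_right (Ideal.mul_le_left.trans hJ𝔪)
  -- the map `φ` is a local biholomorphism
  let Φ : (Fin n → ℂ) → (Fin n → ℂ) := fun x i => φ i x
  have hΦan : AnalyticAt ℂ Φ 0 := AnalyticAt.pi hφ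
  have hΦ0 : Φ 0 = 0 := funext hφ0
  have hΦ : LocalBiholomorphism Φ := by
    choose P _ hP using fun k => hspan (coord k)
    refine localBiholomorphism_of_injective hΦan hΦ0
      (injective_fderiv φ hφ P fun k => hI2 ?_)
    have := hP k
    rwa [hg] at this
  obtain ⟨θ, hθ, hθΦ, hΦθ⟩ := hΦ.exists_inv
  obtain ⟨p, hpdeg, hp⟩ := hspan F
  refine ⟨p, hpdeg, ?_⟩
  -- pull back by `θ`
  have hPan : AnalyticAt ℂ (fun x : Fin n → ℂ => eval x p) 0 :=
    analyticAt_eval (fun i => analyticAt_apply i _) _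
  set T := compHom θ hθ.analyticAt hθ.map_zero with hT
  have hTg : T (aeval g p) = germ (fun x => eval x p) hPan := by
    rw [hg, aeval_germ, hT, compHom_germ, germ_eq_iff]
    filter_upwards [hΦθ] with x hx
    exact congrArg (fun y => eval y p) hx
  set Fp := germ (fun x : Fin n → ℂ => eval x p) hPan with hFp
  set F₁ := T F with hF₁
  have hJ₁ : (Jac F).map T ≤ Jac F₁ :=
    map_Jac_le θ Φ hθ.analyticAt hθ.map_zero hΦan hΦ0 hθΦ hΦθ F
  have hT𝔪 : (maximalIdeal (HolGerm n)).map T ≤ maximalIdeal (HolGerm n) := by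
    rw [Ideal.map_le_iff_le_comap]
    intro h hh
    rw [Ideal.mem_comap, mem_maximalIdeal, hT, val_compHom, ← mem_maximalIdeal]
    exact hh
  have hJ₁𝔪 : Jac F₁ ≤ maximalIdeal (HolGerm n) :=
    Jac_compHom_le θ hθ.analyticAt hθ.map_zero F hJ𝔪
  have hsub : F₁ - Fp ∈ maximalIdeal (HolGerm n) * (Jac F₁ * Jac F₁) := by
    have h1 := Ideal.mem_map_of_mem T hp
    rw [map_sub, hTg, hIdef, Ideal.map_mul, Ideal.map_mul] at h1
    exact Ideal.mul_mono hT𝔪 (Ideal.mul_mono hJ₁ hJ₁) h1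
  have hJle : Jac F₁ ≤ Jac Fp := Jac_le_of_sub_mem F₁ Fp hJ₁𝔪 hsub
  have hJp𝔪 : Jac Fp ≤ maximalIdeal (HolGerm n) := Jac_le_of_sub_mem' F₁ Fp hJ₁𝔪 hsub
  have hsub' : F₁ - Fp ∈ maximalIdeal (HolGerm n) * (Jac Fp * Jac Fp) :=
    Ideal.mul_mono_right (Ideal.mul_mono hJle hJle) hsub
  -- partial derivatives of `p`
  have hpd : ∀ k, pd k Fp = germ (fun x => eval x (pderiv k p))
      (analyticAt_eval (fun i => analyticAt_apply i _) _) := by
    intro k
    rw [hFp, pd_germ, germ_eq_iff]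
    refine Eventually.of_forall fun x => ?_
    exact fderiv_eval_single p k x
  have hJp : Jac Fp * Jac Fp = Ideal.span (Set.range fun kl : Fin n × Fin n =>
      pd kl.1 Fp * pd kl.2 Fp) := by
    unfold Jac
    rw [Ideal.span_mul_span']
    congr 1
    ext x
    constructor
    · rintro ⟨_, ⟨k, rfl⟩, _, ⟨l, rfl⟩, rfl⟩
      exact ⟨(k, l), rfl⟩
    · rintro ⟨⟨k, l⟩, rfl⟩
      exact ⟨_, ⟨k, rfl⟩, _, ⟨l, rfl⟩, rfl⟩
  rw [hJp] at hsub'
  have hsub'' := (Submodule.mem_ideal_smul_span_iff_exists_sum (maximalIdeal (HolGerm n))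
    (fun kl : Fin n × Fin n => pd kl.1 Fp * pd kl.2 Fp) (F₁ - Fp)).mp hsub'
  obtain ⟨a, ha𝔪, hasum⟩ := hsub''
  rw [Finsupp.sum_fintype _ _ (by simp), Fintype.sum_prod_type] at hasum
  choose α hα hαa using fun k l => exists_germ (a (k, l))
  have hα0 : ∀ k l, α k l 0 = 0 := fun k l => by
    have := ha𝔪 (k, l)
    rwa [← hαa, mem_maximalIdeal, val_germ] at this
  have hp0 : ∀ k, eval (0 : Fin n → ℂ) (pderiv k p) = 0 := by
    intro k
    have : pd k Fp ∈ maximalIdeal (HolGerm n) := hJp𝔪 (Ideal.subset_span ⟨k, rfl⟩)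
    rwa [hpd, mem_maximalIdeal, val_germ] at this
  obtain ⟨ψ, hψ, hψp⟩ := tougeron p hp0 α hα hα0
  -- conclude
  have hfinal : ∀ᶠ x in 𝓝 0, f (θ x) = eval (ψ x) p := by
    have h1 : F₁ = Fp + ∑ k, ∑ l, a (k, l) • (pd k Fp * pd l Fp) := by
      rw [hasum]
      ring
    have h2 : ∀ k l, a (k, l) • (pd k Fp * pd l Fp) =
        germ (fun x => α k l x * (eval x (pderiv k p) * eval x (pderiv l p)))
          ((hα k l).mul ((analyticAt_eval (fun i => analyticAt_apply i _) _).mul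
            (analyticAt_eval (fun i => analyticAt_apply i _) _))) := by
      intro k l
      rw [← hαa, hpd, hpd, smul_eq_mul, germ_mul, germ_mul]
    simp only [h2] at h1
    simp only [germ_sum] at h1
    rw [hF₁, hT, hF, compHom_germ, hFp, germ_add, germ_eq_iff] at h1
    filter_upwards [h1, hψp] with x hx hx'
    rw [hx, ← hx']
    congr 1
    refine Finset.sum_congr rfl fun k _ => Finset.sum_congr rfl fun l _ => ?_
    ring
  obtain ⟨ψ', hψ', hψψ', hψ'ψ⟩ := hψ.exists_inv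
  refine ⟨fun x => θ (ψ' x), hθ.comp hψ', ?_⟩
  filter_upwards [hψ'ψ, (tendsto_of_analyticAt hψ'.analyticAt hψ'.map_zero).eventually hfinal]
    with x hx hx'
  rw [hx', hx]

lemma one_le_milnorNumber {f : (Fin n → ℂ) → ℂ} (hf : IsolatedCriticalPoint f) :
    1 ≤ milnorNumber f := by
  obtain ⟨hfan, hf0, hfd, hfin⟩ := hf
  have hJ𝔪 : jacobianIdeal f ≤ maximalIdeal (HolGerm n) := by
    rw [jacobianIdeal_eq hfan]
    refine Ideal.span_le.mpr ?_
    rintro _ ⟨i, rfl⟩
    simp only [SetLike.mem_coe]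
    rw [pd_germ, mem_maximalIdeal, val_germ, hfd]
    rfl
  have hne : jacobianIdeal f ≠ ⊤ := by
    intro h
    rw [h, top_le_iff] at hJ𝔪
    exact (IsLocalRing.maximalIdeal.isMaximal (HolGerm n)).ne_top hJ𝔪
  have : Nontrivial (HolGerm n ⧸ jacobianIdeal f) := Ideal.Quotient.nontrivial_iff.mpr hne
  exact Module.finrank_pos

end

end Pool.Agent.GermDegree
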